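import Pool.Agent.K9h91.PC.Trans
import Pool.Agent.H39R2.Gon.Count

/-!
# Error bound and count theorem with prescribed factors
-/

set_option autoImplicit false

namespace Pool.Agent.K9h91.PC

open Polynomial Finset H39Gon

variable {K : Type} [Field K]

/-- abstract version of the error bound -/
theorem err_abs [Fintype K] [DecidableEq K] {d : ℕ} (S : Fin 3 → Finset (Fin d)) (n : Fin 3 → ℕ)
    (hn : ∀ Y, (S Y).card + 1 = n Y) (hlt : ∀ Y, (S Y).card < n Y)
    (M : Fin 3 → K[X]) (hmon : ∀ Y, (M Y).Monic) (hcop : ∀ X Y : Fin 3, X ≠ Y → IsCoprime (M X) (M Y))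
    (L : Fin 3 → K[X]) (hLm : ∀ Y, (L Y).Monic) (MM : K[X])
    (hMN : ∀ Y, M Y * L Y = MM) (a e : ℕ)
    (hX : ∀ Y, (M Y).natDegree + n Y = d + 1)
    (hra : ∀ Y, (L Y).natDegree + a = n Y)
    (ht0 : (M 1).natDegree + e = n 0) (ht1 : (M 0).natDegree + e = n 1)
    (hle : (M 0).natDegree + (M 1).natDegree + (M 2).natDegree ≤ d + 1)
    (hNN : ∀ Y, 2 * (L Y).natDegree ≤ n Y) (N : ℕ) (hN : ∀ Y, (L Y).natDegree ≤ N) :
    ∑ χ ∈ univ.erase (1 : AddChar (degreeLT K (d + 1)) ℂ),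
      nrm (gf (S 0) (n 0) (hlt 0)) (resC (a := n 0) (b := d + 1) (M 0) (le_of_eq (hX 0)) χ) *
      nrm (gf (S 1) (n 1) (hlt 1)) (resC (a := n 1) (b := d + 1) (M 1) (le_of_eq (hX 1)) χ) *
      nrm (gf (S 2) (n 2) (hlt 2)) (resC (a := n 2) (b := d + 1) (M 2) (le_of_eq (hX 2)) χ) ≤
      (2 * d.factorial) * √((2 * d.factorial) / ((Fintype.card K : ℝ) - 1)) +
        ((1 + (N : ℝ) ^ 2 * (2 * d.factorial) / (Fintype.card K : ℝ)) ^ 2 - 1) := by
  classical
  have hq : (0 : ℝ) < Fintype.card K := by exact_mod_cast Fintype.card_pos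
  have htr : ∀ Y, ∑ χ ∈ univ.filter (fun χ : AddChar (degreeLT K (n Y)) ℂ =>
        resC (a := a) (b := n Y) (L Y) (le_of_eq (hra Y)) χ = 1),
      nrm (gf (K := K) (S Y) (n Y) (hlt Y)) χ ^ 2 ≤
      1 + (N : ℝ) ^ 2 * (2 * d.factorial) / (Fintype.card K : ℝ) := by
    intro Y
    have key : ∀ (n' : ℕ) (hn' : (S Y).card + 1 = n') (hlt' : (S Y).card < n')
        (hra' : (L Y).natDegree + a = n') (hNN' : 2 * (L Y).natDegree ≤ n'),
        ∑ χ ∈ univ.filter (fun χ : AddChar (degreeLT K n') ℂ =>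
        resC (a := a) (b := n') (L Y) (le_of_eq hra') χ = 1),
      nrm (gf (K := K) (S Y) n' hlt') χ ^ 2 ≤
      1 + (N : ℝ) ^ 2 * (2 * d.factorial) / (Fintype.card K : ℝ) := by
      intro n' hn' hlt' hra' hNN'
      subst hn'
      refine (translation_bound (S Y) (L Y) (hLm Y) hra' hNN').trans ?_
      have : ((L Y).natDegree : ℝ) ≤ N := by exact_mod_cast hN Y
      gcongr
    exact key (n Y) (hn Y) (hlt Y) (hra Y) (hNN Y)
  have hrr : ∀ (Y Y' : Fin 3) (χ : AddChar (degreeLT K (d + 1)) ℂ),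
      resC (a := a) (b := n Y) (L Y) (le_of_eq (hra Y))
        (resC (a := n Y) (b := d + 1) (M Y) (le_of_eq (hX Y)) χ) =
      resC (a := a) (b := n Y') (L Y') (le_of_eq (hra Y'))
        (resC (a := n Y') (b := d + 1) (M Y') (le_of_eq (hX Y')) χ) := by
    intro Y Y' χ
    ext P
    rw [resC_apply, resC_apply, resC_apply, resC_apply]
    congr 1
    ext1
    rw [mulMap_coe, mulMap_coe, mulMap_coe, mulMap_coe, ← mul_assoc, ← mul_assoc, hMN, hMN]
  apply abstract_bound (Θ := AddChar (degreeLT K e) ℂ) (H := AddChar (degreeLT K a) ℂ)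
    (resC (a := n 0) (b := d + 1) (M 0) (le_of_eq (hX 0)))
    (resC (a := n 1) (b := d + 1) (M 1) (le_of_eq (hX 1)))
    (resC (a := n 2) (b := d + 1) (M 2) (le_of_eq (hX 2)))
    (resC (a := e) (b := n 0) (M 1) (le_of_eq ht0)) (resC (a := e) (b := n 1) (M 0) (le_of_eq ht1))
    ?_ ?_ ?_
    (resC (a := a) (b := n 0) (L 0) (le_of_eq (hra 0)))
    (resC (a := a) (b := n 1) (L 1) (le_of_eq (hra 1)))
    (resC (a := a) (b := n 2) (L 2) (le_of_eq (hra 2))) ?_ ?_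
    1 _ _ _ (nrm_nonneg _) (nrm_nonneg _) (nrm_nonneg _) ?_ _ _ _ (by positivity) (by positivity)
    (parseval_gf' _ _ (hn 0) _) (parseval_gf' _ _ (hn 1) _) ?_ ?_ ?_ ?_
  · intro χ
    ext P
    rw [resC_apply, resC_apply, resC_apply, resC_apply]
    congr 1
    ext1
    rw [mulMap_coe, mulMap_coe, mulMap_coe, mulMap_coe]
    ring
  · intro χ χ' h h'
    exact resC_inj (hmon 0) (hmon 1) (hcop 0 1 (by decide)) (hX 0) (hX 1)
      (by omega) χ χ' h h'
  · intro χ χ' h h'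
    have h01d : (M 0 * M 1).natDegree = (M 0).natDegree + (M 1).natDegree :=
      (hmon 0).natDegree_mul (hmon 1)
    have hX0 := hX 0
    have hd01 : (M 0 * M 1).natDegree + e = d + 1 := by rw [h01d]; omega
    refine resC_inj ((hmon 0).mul (hmon 1)) (hmon 2)
      (IsCoprime.mul_left (hcop 0 2 (by decide)) (hcop 1 2 (by decide))) hd01 (hX 2)
      (by rw [h01d]; omega) χ χ' ?_ h'
    rw [← resC_comp (le_of_eq ht0) (le_of_eq (hX 0)) (le_of_eq hd01),
      ← resC_comp (le_of_eq ht0) (le_of_eq (hX 0)) (le_of_eq hd01)]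
    exact h
  · intro χ; exact hrr 1 0 χ
  · intro χ; exact hrr 2 0 χ
  · rw [resC_one, resC_one, resC_one, nrm_one, nrm_one, nrm_one]; norm_num
  · intro Q hQ
    apply scaling_bound' _ _ (hn 2)
    intro h1
    apply hQ
    rw [h1, resC_one, resC_one]
  · rw [resC_one, resC_one]
    exact htr 0
  · rw [resC_one, resC_one]
    exact htr 1
  · rw [resC_one, resC_one]
    exact htr 2

/-- the degree condition -/
def DegOK {d : ℕ} (g : Fin 3 → K[X]) (S : Fin 3 → Finset (Fin d)) : Prop :=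
  ∀ Y, (g Y).natDegree + (S Y).card = d

theorem DegOK.eq {d : ℕ} {g : Fin 3 → K[X]} {S : Fin 3 → Finset (Fin d)} (h : DegOK g S)
    (Y : Fin 3) : (g Y).natDegree + ((S Y).card + 1) = d + 1 := by
  have := h Y
  omega

theorem err_bound [Fintype K] [DecidableEq K] {d N : ℕ} (g : Fin 3 → K[X])
    (S : Fin 3 → Finset (Fin d)) (hdeg : DegOK g S) (hmon : ∀ Y, (g Y).Monic)
    (hcop : ∀ X Y : Fin 3, X ≠ Y → IsCoprime (g X) (g Y))
    (hN : (g 0).natDegree + (g 1).natDegree + (g 2).natDegree ≤ N) (hNd : 3 * N ≤ d) :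
    ∑ χ ∈ univ.erase (1 : AddChar (degreeLT K (d + 1)) ℂ),
      nrm (gf (S 0) ((S 0).card + 1) (Nat.lt_succ_self _))
        (resC (a := (S 0).card + 1) (b := d + 1) (g 0) (le_of_eq (hdeg.eq 0)) χ) *
      nrm (gf (S 1) ((S 1).card + 1) (Nat.lt_succ_self _))
        (resC (a := (S 1).card + 1) (b := d + 1) (g 1) (le_of_eq (hdeg.eq 1)) χ) *
      nrm (gf (S 2) ((S 2).card + 1) (Nat.lt_succ_self _))
        (resC (a := (S 2).card + 1) (b := d + 1) (g 2) (le_of_eq (hdeg.eq 2)) χ) ≤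
      (2 * d.factorial) * √((2 * d.factorial) / ((Fintype.card K : ℝ) - 1)) +
        ((1 + (N : ℝ) ^ 2 * (2 * d.factorial) / (Fintype.card K : ℝ)) ^ 2 - 1) := by
  have h0 := hdeg 0
  have h1 := hdeg 1
  have h2 := hdeg 2
  set L : Fin 3 → K[X] := ![g 1 * g 2, g 0 * g 2, g 0 * g 1] with hL
  have hL0 : (L 0).natDegree = (g 1).natDegree + (g 2).natDegree :=
    (hmon 1).natDegree_mul (hmon 2)
  have hL1 : (L 1).natDegree = (g 0).natDegree + (g 2).natDegree :=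
    (hmon 0).natDegree_mul (hmon 2)
  have hL2 : (L 2).natDegree = (g 0).natDegree + (g 1).natDegree :=
    (hmon 0).natDegree_mul (hmon 1)
  have hall : ∀ (p : Fin 3 → Prop), p 0 → p 1 → p 2 → ∀ Y, p Y := by
    intro p a b c Y
    fin_cases Y
    · exact a
    · exact b
    · exact c
  refine err_abs S (fun Y => (S Y).card + 1) (fun _ => rfl) (fun _ => Nat.lt_succ_self _) g hmon
    hcop L (hall _ ((hmon 1).mul (hmon 2)) ((hmon 0).mul (hmon 2)) ((hmon 0).mul (hmon 1)))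
    (g 0 * g 1 * g 2) (hall _ ?_ ?_ ?_)
    (d + 1 - ((g 0).natDegree + (g 1).natDegree + (g 2).natDegree))
    (d + 1 - ((g 0).natDegree + (g 1).natDegree)) (fun Y => hdeg.eq Y)
    (hall _ ?_ ?_ ?_) ?_ ?_ ?_ (hall _ ?_ ?_ ?_) N (hall _ ?_ ?_ ?_)
  · change g 0 * (g 1 * g 2) = _
    ring
  · change g 1 * (g 0 * g 2) = _
    ring
  · change g 2 * (g 0 * g 1) = _
    ring
  · rw [hL0]; omega
  · rw [hL1]; omega
  · rw [hL2]; omega
  · omega
  · omega
  · omega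
  · rw [hL0]; omega
  · rw [hL1]; omega
  · rw [hL2]; omega
  · rw [hL0]; omega
  · rw [hL1]; omega
  · rw [hL2]; omega

/-- number of `(λ_A, λ_B, λ_C)` with `∑ λ_Y g_Y ∏_{i ∈ S_Y} (T - z(Y,i)) = 0` -/
noncomputable def Wg {d : ℕ} (g : Fin 3 → K[X]) (S : Fin 3 → Finset (Fin d))
    (z : Fin 3 × Fin d → K) : ℝ :=
  (Nat.card {l : Fin 3 → Kˣ //
    ∑ Y : Fin 3, C (l Y : K) * (g Y * ∏ i ∈ S Y, (X - C (z (Y, i)))) = 0} : ℝ)

/-- the vectors `M_X g_X(ω)` -/
noncomputable def vecg {d : ℕ} (g : Fin 3 → K[X]) (S : Fin 3 → Finset (Fin d)) (h : DegOK g S)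
    (Y : Fin 3) (ω : Kˣ × (Fin d → K)) : degreeLT K (d + 1) :=
  mulMap (a := (S Y).card + 1) (b := d + 1) (g Y) (le_of_eq (h.eq Y))
    (gf (S Y) ((S Y).card + 1) (Nat.lt_succ_self _) ω)

variable [Fintype K] [DecidableEq K]

theorem Wg_eq {d : ℕ} (g : Fin 3 → K[X]) (S : Fin 3 → Finset (Fin d)) (h : DegOK g S)
    (z : Fin 3 × Fin d → K) :
    Wg g S z = ∑ l : Fin 3 → Kˣ,
      (if ∑ Y : Fin 3, vecg g S h Y (l Y, fun i => z (Y, i)) = 0 then (1 : ℝ) else 0) := by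
  classical
  unfold Wg
  rw [Nat.card_eq_fintype_card, Fintype.card_subtype, Finset.card_filter]
  push_cast
  apply Finset.sum_congr rfl
  intro l _
  have : (∑ Y : Fin 3, C (l Y : K) * (g Y * ∏ i ∈ S Y, (X - C (z (Y, i)))) = 0) ↔
      (∑ Y : Fin 3, vecg g S h Y (l Y, fun i => z (Y, i)) = 0) := by
    rw [← Submodule.coe_eq_zero, Submodule.coe_sum]
    have e : ∀ Y : Fin 3, ((vecg g S h Y (l Y, fun i => z (Y, i)) : degreeLT K (d + 1)) : K[X]) =
        C (l Y : K) * (g Y * ∏ i ∈ S Y, (X - C (z (Y, i)))) := by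
      intro Y
      unfold vecg
      rw [mulMap_coe, gf_coe]
      ring
    simp_rw [e]
  simp only [this]

theorem main_identity {d : ℕ} (g : Fin 3 → K[X]) (S : Fin 3 → Finset (Fin d)) (h : DegOK g S) :
    (((Fintype.card K : ℝ) ^ (d + 1) * ∑ z : Fin 3 × Fin d → K, Wg g S z : ℝ) : ℂ) =
      ∑ χ : AddChar (degreeLT K (d + 1)) ℂ, ∏ Y : Fin 3, ∑ ω, χ (vecg g S h Y ω) := by
  classical
  have h1 : ∀ z' : Fin 3 × Fin d → K, (((Fintype.card K : ℝ) ^ (d + 1) * Wg g S z' : ℝ) : ℂ)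
      = ∑ l : Fin 3 → Kˣ, ∑ χ : AddChar (degreeLT K (d + 1)) ℂ,
        ∏ Y : Fin 3, χ (vecg g S h Y (l Y, fun i => z' (Y, i))) := by
    intro z'
    rw [Wg_eq g S h]
    push_cast
    rw [Finset.mul_sum]
    apply Finset.sum_congr rfl
    intro l _
    have := AddChar.sum_apply_eq_ite (∑ Y : Fin 3, vecg g S h Y (l Y, fun i => z' (Y, i)))
    have h2 : ∀ χ : AddChar (degreeLT K (d + 1)) ℂ,
        χ (∑ Y : Fin 3, vecg g S h Y (l Y, fun i => z' (Y, i))) =
        ∏ Y : Fin 3, χ (vecg g S h Y (l Y, fun i => z' (Y, i))) := by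
      intro χ
      rw [Fin.sum_univ_three, Fin.prod_univ_three, AddChar.map_add_eq_mul, AddChar.map_add_eq_mul]
    simp_rw [h2] at this
    rw [this, card_degreeLT]
    split_ifs <;> simp
  rw [Finset.mul_sum, Complex.ofReal_sum]
  simp_rw [h1]
  simp_rw [Finset.sum_comm (s := (univ : Finset (Fin 3 → Kˣ)))]
  rw [Finset.sum_comm]
  apply Finset.sum_congr rfl
  intro χ _
  rw [Finset.prod_univ_sum]
  rw [Fintype.piFinset_univ, ← Finset.sum_product', Finset.univ_product_univ]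
  exact Fintype.sum_equiv (reidx d K Kˣ) _ _ (fun p => rfl)

theorem count_explicit {d N : ℕ} (g : Fin 3 → K[X])
    (S : Fin 3 → Finset (Fin d)) (hdeg : DegOK g S) (hmon : ∀ Y, (g Y).Monic)
    (hcop : ∀ X Y : Fin 3, X ≠ Y → IsCoprime (g X) (g Y))
    (hN : (g 0).natDegree + (g 1).natDegree + (g 2).natDegree ≤ N) (hNd : 3 * N ≤ d) :
    |(∑ z : Fin 3 × Fin d → K, Wg g S z) / (Fintype.card K : ℝ) ^ (3 * d)
      - wbar (Fintype.card K) d| ≤
      ((2 * d.factorial) * √((2 * d.factorial) / ((Fintype.card K : ℝ) - 1)) +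
        ((1 + (N : ℝ) ^ 2 * (2 * d.factorial) / (Fintype.card K : ℝ)) ^ 2 - 1)) *
      wbar (Fintype.card K) d := by
  classical
  have hq2 : 2 ≤ Fintype.card K := Fintype.one_lt_card
  set q : ℝ := (Fintype.card K : ℝ) with hqd
  have hq : (0 : ℝ) < q := by rw [hqd]; exact_mod_cast Fintype.card_pos
  have hq1 : (1 : ℝ) ≤ q - 1 := by
    have : (2 : ℝ) ≤ q := by rw [hqd]; exact_mod_cast hq2
    linarith
  set E := (2 * d.factorial) * √((2 * d.factorial) / (q - 1)) +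
        ((1 + (N : ℝ) ^ 2 * (2 * d.factorial) / q) ^ 2 - 1) with hE
  have hcard : (Fintype.card (Kˣ × (Fin d → K)) : ℝ) = (q - 1) * q ^ d := by
    rw [Fintype.card_prod, Fintype.card_units K]
    push_cast [Nat.cast_sub (by omega : 1 ≤ Fintype.card K)]
    simp [hqd]
  set T : ℝ := ∑ z : Fin 3 × Fin d → K, Wg g S z with hTdef
  have hmain := main_identity g S hdeg
  rw [← hTdef, ← hqd] at hmain
  have hterm : ∀ (χ : AddChar (degreeLT K (d + 1)) ℂ) (Y : Fin 3),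
      ‖∑ ω, χ (vecg g S hdeg Y ω)‖ = ((q - 1) * q ^ d) *
        nrm (gf (S Y) ((S Y).card + 1) (Nat.lt_succ_self _))
        (resC (a := (S Y).card + 1) (b := d + 1) (g Y) (le_of_eq (hdeg.eq Y)) χ) := by
    intro χ Y
    unfold nrm
    rw [hcard, mul_div_cancel₀]
    · rfl
    · have : 0 < (q - 1) * q ^ d := by
        apply mul_pos (by linarith) (by positivity)
      exact this.ne'
  have hone : ∏ Y : Fin 3, ∑ ω, (1 : AddChar (degreeLT K (d + 1)) ℂ) (vecg g S hdeg Y ω) =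
      ((((q - 1) * q ^ d) ^ 3 : ℝ) : ℂ) := by
    simp only [AddChar.one_apply, sum_const, card_univ, nsmul_eq_mul, mul_one, prod_const,
      Fintype.card_fin]
    rw [← hcard]
    push_cast
    rfl
  have hdiff : ‖(((q ^ (d + 1) * T - ((q - 1) * q ^ d) ^ 3 : ℝ)) : ℂ)‖ ≤
      ((q - 1) * q ^ d) ^ 3 * E := by
    rw [Complex.ofReal_sub, hmain, ← hone,
      ← Finset.sum_erase_add univ _ (mem_univ (1 : AddChar (degreeLT K (d + 1)) ℂ)),
      add_sub_cancel_right]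
    refine (norm_sum_le _ _).trans ?_
    have herr := err_bound g S hdeg hmon hcop hN hNd
    rw [← hqd, ← hE] at herr
    have hpos : 0 ≤ ((q - 1) * q ^ d) ^ 3 := by
      have : 0 < (q - 1) * q ^ d := mul_pos (by linarith) (by positivity)
      positivity
    refine le_trans (le_of_eq ?_) (mul_le_mul_of_nonneg_left herr hpos)
    rw [Finset.mul_sum]
    apply Finset.sum_congr rfl
    intro χ _
    rw [norm_prod, Fin.prod_univ_three, hterm, hterm, hterm]
    ring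
  rw [Complex.norm_real, Real.norm_eq_abs] at hdiff
  have hw : wbar (Fintype.card K) d = ((q - 1) * q ^ d) ^ 3 / (q ^ (d + 1) * q ^ (3 * d)) := by
    unfold wbar
    rw [← hqd, div_eq_div_iff (by positivity) (by positivity)]
    ring
  have e1 : T / q ^ (3 * d) - wbar (Fintype.card K) d =
      (q ^ (d + 1) * T - ((q - 1) * q ^ d) ^ 3) / (q ^ (d + 1) * q ^ (3 * d)) := by
    rw [hw]
    field_simp
  rw [e1, abs_div, abs_of_pos (by positivity : 0 < q ^ (d + 1) * q ^ (3 * d)), hw]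
  rw [div_le_iff₀ (by positivity)]
  refine hdiff.trans (le_of_eq ?_)
  field_simp

omit [Fintype K] [DecidableEq K] in
open Filter Topology in
/-- count theorem -/
theorem countG (N d : ℕ) (hNd : 3 * N ≤ d) (ε : ℝ) (hε : 0 < ε) :
    ∃ q0 : ℕ, ∀ (K : Type) [Field K] [Fintype K] [DecidableEq K], q0 ≤ Fintype.card K →
    ∀ (g : Fin 3 → K[X]) (S : Fin 3 → Finset (Fin d)), DegOK g S → (∀ Y, (g Y).Monic) →
    (∀ X Y : Fin 3, X ≠ Y → IsCoprime (g X) (g Y)) →
    (g 0).natDegree + (g 1).natDegree + (g 2).natDegree ≤ N →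
    |(∑ z : Fin 3 × Fin d → K, Wg g S z) / (Fintype.card K : ℝ) ^ (3 * d)
      - wbar (Fintype.card K) d| ≤ ε * wbar (Fintype.card K) d := by
  have hlim : Tendsto (fun n : ℕ => (2 * (d.factorial : ℝ)) * √((2 * d.factorial) / ((n : ℝ) - 1)) +
        ((1 + (N : ℝ) ^ 2 * (2 * d.factorial) / (n : ℝ)) ^ 2 - 1)) atTop (𝓝 0) := by
    have hn : Tendsto (fun n : ℕ => (n : ℝ)) atTop atTop := tendsto_natCast_atTop_atTop
    have hn1 : Tendsto (fun n : ℕ => (n : ℝ) - 1) atTop atTop :=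
      tendsto_atTop_add_const_right _ _ hn
    have l1 : Tendsto (fun n : ℕ => (2 * (d.factorial : ℝ)) / ((n : ℝ) - 1)) atTop (𝓝 0) :=
      hn1.const_div_atTop _
    have l2 : Tendsto (fun n : ℕ => (N : ℝ) ^ 2 * (2 * d.factorial) / (n : ℝ)) atTop (𝓝 0) :=
      hn.const_div_atTop _
    have l3 : Tendsto (fun n : ℕ => √((2 * (d.factorial : ℝ)) / ((n : ℝ) - 1))) atTop (𝓝 0) := by
      have := l1.sqrt
      rwa [Real.sqrt_zero] at this
    have l4 := (l3.const_mul (2 * (d.factorial : ℝ))).add (((l2.const_add 1).pow 2).sub_const 1)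
    simpa using l4
  have hev : ∀ᶠ n : ℕ in atTop, (2 * (d.factorial : ℝ)) * √((2 * d.factorial) / ((n : ℝ) - 1)) +
        ((1 + (N : ℝ) ^ 2 * (2 * d.factorial) / (n : ℝ)) ^ 2 - 1) < ε :=
    hlim.eventually (gt_mem_nhds hε)
  obtain ⟨q0, hq0⟩ := Filter.eventually_atTop.1 hev
  refine ⟨q0, ?_⟩
  intro K _ _ _ hK g S hdeg hmon hcop hN
  refine (count_explicit g S hdeg hmon hcop hN hNd).trans ?_
  have hw : 0 ≤ wbar (Fintype.card K) d := by
    unfold wbar
    have hq2 : 2 ≤ Fintype.card K := Fintype.one_lt_card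
    have : (2 : ℝ) ≤ Fintype.card K := by exact_mod_cast hq2
    have h1 : (0 : ℝ) ≤ (Fintype.card K : ℝ) - 1 := by linarith
    positivity
  exact mul_le_mul_of_nonneg_right (hq0 _ hK).le hw

end Pool.Agent.K9h91.PC
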