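import Pool.Agent.K9h91.PC.TV
import Pool.Agent.H39R2.Gon.B3

/-!
# The alternating sum over the configurations
-/

set_option autoImplicit false

namespace Pool.Agent.K9h91.PC

open Polynomial Finset H39Gon H39Gon.A2 H39Gon.TaskB

variable {K : Type} [Field K] {V : Type} [AddCommGroup V] {m d : ℕ}

/-- items: prescribed polynomials and slots -/
abbrev It (m d : ℕ) : Type := Fin (m + 2) ⊕ (Fin 3 × Fin d)

/-- value of an item -/
noncomputable def vl (u : K[X] → V) (t : Fin (m + 2) → K[X]) (z : Fin 3 × Fin d → K) :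
    It m d → V :=
  Sum.elim (fun i => u (t i)) (fun s => u (X - C (z s)))

/-- group of an item -/
def gr (x : Fin (m + 2) → Fin 3) : It m d → Fin 3 := Sum.elim x (fun s => s.1)

/-- active items -/
def act (B : Fin (m + 2) → Finset (Fin 3 × Fin d)) (ε : Finset (Fin (m + 2))) : It m d → Prop :=
  Sum.elim (fun i => i ∈ ε) (fun s => ∀ i ∈ ε, s ∉ B i)

/-- coefficients -/
def cz (r : Fin (m + 2)) : Fin 3 → ℤ := if r = 0 then c0z else c1z

/-- sign -/
noncomputable def sgn (ε : Finset (Fin (m + 2))) : ℝ := (-1) ^ (univ \ ε).card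

theorem alt_zero (B : Fin (m + 2) → Finset (Fin 3 × Fin d)) (J : Fin (m + 2) → It m d)
    (i0 : Fin (m + 2)) (h1 : ∀ r, J r ≠ Sum.inl i0) (h2 : ∀ r, ∀ s ∈ B i0, J r ≠ Sum.inr s)
    [∀ ε : Finset (Fin (m + 2)), Decidable (∀ r, act B ε (J r))] :
    ∑ ε : Finset (Fin (m + 2)), sgn ε * (if ∀ r, act B ε (J r) then (1 : ℝ) else 0) = 0 := by
  classical
  have hact : ∀ ε : Finset (Fin (m + 2)), i0 ∉ ε →
      ((∀ r, act B (insert i0 ε) (J r)) ↔ (∀ r, act B ε (J r))) := by
    intro ε hε
    refine forall_congr' fun r => ?_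
    rcases hr : J r with i | s
    · have hi : i ≠ i0 := fun h => h1 r (by rw [hr, h])
      simp [act, hi]
    · have hs : s ∉ B i0 := fun h => h2 r s h hr
      simp [act, hs]
  have hsg : ∀ ε : Finset (Fin (m + 2)), i0 ∉ ε → sgn (insert i0 ε) = - sgn ε := by
    intro ε hε
    unfold sgn
    have : (univ \ ε) = insert i0 (univ \ insert i0 ε) := by
      ext a
      by_cases ha : a = i0
      · subst ha; simp [hε]
      · simp [ha]
    rw [this, card_insert_of_notMem (by simp), pow_succ]
    ring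
  apply Finset.sum_involution (fun ε _ => if i0 ∈ ε then ε.erase i0 else insert i0 ε)
  · intro ε _
    by_cases h : i0 ∈ ε
    · rw [if_pos h]
      have h3 : i0 ∉ ε.erase i0 := notMem_erase _ _
      have h4 : insert i0 (ε.erase i0) = ε := insert_erase h
      have h5 := hact _ h3
      have h6 := hsg _ h3
      rw [h4] at h5 h6
      rw [h6]
      simp only [h5]
      ring
    · rw [if_neg h, hsg ε h]
      simp only [hact ε h]
      ring
  · intro ε _ _
    by_cases h : i0 ∈ ε
    · rw [if_pos h]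
      intro h'
      have := notMem_erase i0 ε
      rw [h'] at this
      exact this h
    · rw [if_neg h]
      intro h'
      apply h
      rw [← h']
      exact mem_insert_self _ _
  · intro ε _
    by_cases h : i0 ∈ ε
    · simp [h, insert_erase]
    · simp [h]
  · intro ε _
    exact mem_univ _

theorem res_zero [Fintype K] [DecidableEq K]
    (P : MultilinearMap ℤ (fun _ : Fin (m + 2) => V) ℝ) (u : K[X] → V)
    (hbal : ∑ a : K, u (X - C a) = 0) (t : Fin (m + 2) → K[X]) (J : Fin (m + 2) → It m d)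
    (r0 : Fin (m + 2)) (s : Fin 3 × Fin d) (h0 : J r0 = Sum.inr s)
    (h : ∀ r, r ≠ r0 → J r ≠ Sum.inr s) :
    ∑ z : Fin 3 × Fin d → K, P (fun r => vl u t z (J r)) = 0 := by
  have hq : (Fintype.card K : ℝ) ≠ 0 := by
    have : 0 < Fintype.card K := Fintype.card_pos
    positivity
  have h1 := sum_update s (fun z : Fin 3 × Fin d → K => P (fun r => vl u t z (J r)))
  have h2 : ∀ z : Fin 3 × Fin d → K, ∑ x : K,
      P (fun r => vl u t (Function.update z s x) (J r)) = 0 := by
    intro z
    have h3 : ∀ x : K, (fun r => vl u t (Function.update z s x) (J r)) =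
        Function.update (fun r => vl u t z (J r)) r0 (u (X - C x)) := by
      intro x
      funext r
      by_cases hr : r = r0
      · subst hr
        rw [Function.update_self, h0]
        simp [vl]
      · rw [Function.update_of_ne hr]
        rcases hJ : J r with i | s'
        · rfl
        · have hs : s' ≠ s := fun hh => h r hr (by rw [hJ, hh])
          simp [vl, Function.update_of_ne hs]
    simp only [h3]
    rw [← MultilinearMap.map_update_sum, hbal, MultilinearMap.map_update_zero]
  simp only [h2, sum_const_zero] at h1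
  rcases mul_eq_zero.1 h1.symm with h1 | h1
  · exact absurd h1 hq
  · exact h1

theorem key_zero [Fintype K] [DecidableEq K]
    (P : MultilinearMap ℤ (fun _ : Fin (m + 2) => V) ℝ) (u : K[X] → V)
    (hbal : ∑ a : K, u (X - C a) = 0) (t : Fin (m + 2) → K[X])
    (B : Fin (m + 2) → Finset (Fin 3 × Fin d)) (hB : ∀ i j, i ≠ j → Disjoint (B i) (B j))
    (J : Fin (m + 2) → It m d) (hJ : ∀ σ : Equiv.Perm (Fin (m + 2)), (fun r => Sum.inl (σ r)) ≠ J)
    [∀ ε : Finset (Fin (m + 2)), Decidable (∀ r, act B ε (J r))] :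
    (∑ ε : Finset (Fin (m + 2)), sgn ε * (if ∀ r, act B ε (J r) then (1 : ℝ) else 0)) *
      ∑ z : Fin 3 × Fin d → K, P (fun r => vl u t z (J r)) = 0 := by
  classical
  by_cases h : ∃ i0, (∀ r, J r ≠ Sum.inl i0) ∧ (∀ r, ∀ s ∈ B i0, J r ≠ Sum.inr s)
  · obtain ⟨i0, h1, h2⟩ := h
    rw [alt_zero B J i0 h1 h2, zero_mul]
  · have h' : ∀ i, ∃ r, J r = Sum.inl i ∨ ∃ s ∈ B i, J r = Sum.inr s := by
      intro i
      by_contra hcon
      push Not at hcon
      exact h ⟨i, fun r => (hcon r).1, fun r => (hcon r).2⟩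
    choose ρ hρ using h'
    have huniq : ∀ (i j : Fin (m + 2)) (a : It m d),
        (a = Sum.inl i ∨ ∃ s ∈ B i, a = Sum.inr s) →
        (a = Sum.inl j ∨ ∃ s ∈ B j, a = Sum.inr s) → i = j := by
      intro i j a h1 h2
      by_contra hij
      rcases h1 with h1 | ⟨s, hs, h1⟩ <;> rcases h2 with h2 | ⟨s', hs', h2⟩
      · rw [h1] at h2
        exact hij (Sum.inl_injective h2)
      · rw [h1] at h2
        exact Sum.inl_ne_inr h2
      · rw [h1] at h2
        exact Sum.inr_ne_inl h2
      · rw [h1] at h2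
        have := Sum.inr_injective h2
        subst this
        exact Finset.disjoint_left.1 (hB i j hij) hs hs'
    have hinj : Function.Injective ρ := by
      intro i j hij
      exact huniq i j (J (ρ i)) (hρ i) (by rw [hij]; exact hρ j)
    have hbij : Function.Bijective ρ := Finite.injective_iff_bijective.1 hinj
    by_cases hall : ∀ i, J (ρ i) = Sum.inl i
    · exfalso
      apply hJ (Equiv.ofBijective ρ hbij).symm
      funext r
      rw [← hall, ← Equiv.ofBijective_apply ρ hbij, Equiv.apply_symm_apply]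
    · push Not at hall
      obtain ⟨i, hi⟩ := hall
      obtain ⟨s, hs, hJs⟩ := (hρ i).resolve_left hi
      rw [res_zero P u hbal t J (ρ i) s hJs, mul_zero]
      intro r hr hrs
      obtain ⟨j, rfl⟩ := hbij.2 r
      have hji : j = i := huniq j i (J (ρ j)) (hρ j) (Or.inr ⟨s, hs, hrs⟩)
      exact hr (by rw [hji])

open Classical in
/-- coefficients of the active items -/
noncomputable def Gc (x : Fin (m + 2) → Fin 3) (B : Fin (m + 2) → Finset (Fin 3 × Fin d))
    (ε : Finset (Fin (m + 2))) (r : Fin (m + 2)) (a : It m d) : ℤ :=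
  if act B ε a then cz r (gr x a) else 0

open Classical in
theorem prod_Gc (x : Fin (m + 2) → Fin 3) (B : Fin (m + 2) → Finset (Fin 3 × Fin d))
    (ε : Finset (Fin (m + 2))) (J : Fin (m + 2) → It m d) :
    ∏ r, (Gc x B ε r (J r) : ℝ) = (∏ r, (cz r (gr x (J r)) : ℝ)) *
      (if ∀ r, act B ε (J r) then (1 : ℝ) else 0) := by
  unfold Gc
  split_ifs with h
  · rw [mul_one]
    refine prod_congr rfl fun r _ => ?_
    rw [if_pos (h r)]
  · rw [mul_zero]
    push Not at h
    obtain ⟨r, hr⟩ := h
    apply prod_eq_zero (mem_univ r)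
    rw [if_neg hr]
    simp

/-- the value for a configuration -/
noncomputable def Fe (P : MultilinearMap ℤ (fun _ : Fin (m + 2) => V) ℝ) (u : K[X] → V)
    (t : Fin (m + 2) → K[X]) (x : Fin (m + 2) → Fin 3)
    (B : Fin (m + 2) → Finset (Fin 3 × Fin d)) (ε : Finset (Fin (m + 2)))
    (z : Fin 3 × Fin d → K) : ℝ :=
  P (fun r => ∑ a : It m d, Gc x B ε r a • vl u t z a)

theorem main_sum [Fintype K] [DecidableEq K]
    (P : MultilinearMap ℤ (fun _ : Fin (m + 2) => V) ℝ) (u : K[X] → V)
    (hbal : ∑ a : K, u (X - C a) = 0) (t : Fin (m + 2) → K[X]) (x : Fin (m + 2) → Fin 3)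
    (B : Fin (m + 2) → Finset (Fin 3 × Fin d)) (hB : ∀ i j, i ≠ j → Disjoint (B i) (B j)) :
    ∑ ε : Finset (Fin (m + 2)), sgn ε * ∑ z : Fin 3 × Fin d → K, Fe P u t x B ε z =
      NQ (Fin 3 × Fin d) K * ∑ σ : Equiv.Perm (Fin (m + 2)),
        (∏ r, (cz r (x (σ r)) : ℝ)) * P (fun r => u (t (σ r))) := by
  classical
  have h1 : ∀ ε : Finset (Fin (m + 2)), sgn ε * ∑ z : Fin 3 × Fin d → K, Fe P u t x B ε z =
      ∑ J : Fin (m + 2) → It m d, (∏ r, (cz r (gr x (J r)) : ℝ)) *
        ((sgn ε * (if ∀ r, act B ε (J r) then (1 : ℝ) else 0)) *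
          ∑ z : Fin 3 × Fin d → K, P (fun r => vl u t z (J r))) := by
    intro ε
    have h2 : ∀ z : Fin 3 × Fin d → K, Fe P u t x B ε z = ∑ J : Fin (m + 2) → It m d,
        (∏ r, (Gc x B ε r (J r) : ℝ)) * P (fun r => vl u t z (J r)) := by
      intro z
      unfold Fe
      rw [map_lincomb]
    simp only [h2]
    rw [sum_comm, mul_sum]
    refine sum_congr rfl fun J _ => ?_
    rw [← mul_sum, prod_Gc]
    ring
  simp only [h1]
  rw [sum_comm]
  have h3 : ∀ J : Fin (m + 2) → It m d, ∑ ε : Finset (Fin (m + 2)),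
      (∏ r, (cz r (gr x (J r)) : ℝ)) *
        ((sgn ε * (if ∀ r, act B ε (J r) then (1 : ℝ) else 0)) *
          ∑ z : Fin 3 × Fin d → K, P (fun r => vl u t z (J r))) =
      (∏ r, (cz r (gr x (J r)) : ℝ)) * ((∑ ε : Finset (Fin (m + 2)),
        sgn ε * (if ∀ r, act B ε (J r) then (1 : ℝ) else 0)) *
          ∑ z : Fin 3 × Fin d → K, P (fun r => vl u t z (J r))) := by
    intro J
    rw [sum_mul, mul_sum]
  simp only [h3]
  have h4 : ∑ J : Fin (m + 2) → It m d,
      (∏ r, (cz r (gr x (J r)) : ℝ)) * ((∑ ε : Finset (Fin (m + 2)),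
        sgn ε * (if ∀ r, act B ε (J r) then (1 : ℝ) else 0)) *
          ∑ z : Fin 3 × Fin d → K, P (fun r => vl u t z (J r))) =
      ∑ J ∈ (univ : Finset (Equiv.Perm (Fin (m + 2)))).image
        (fun σ : Equiv.Perm (Fin (m + 2)) => (fun r => (Sum.inl (σ r) : It m d))),
      (∏ r, (cz r (gr x (J r)) : ℝ)) * ((∑ ε : Finset (Fin (m + 2)),
        sgn ε * (if ∀ r, act B ε (J r) then (1 : ℝ) else 0)) *
          ∑ z : Fin 3 × Fin d → K, P (fun r => vl u t z (J r))) := by
    symm
    refine sum_subset (subset_univ _) fun J _ hJ => ?_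
    rw [key_zero P u hbal t B hB J, mul_zero]
    intro σ hσ
    apply hJ
    rw [mem_image]
    exact ⟨σ, mem_univ _, hσ⟩
  rw [h4, sum_image]
  · rw [mul_sum]
    refine sum_congr rfl fun σ _ => ?_
    have h5 : ∑ ε : Finset (Fin (m + 2)), sgn ε *
        (if ∀ r, act B ε ((fun r => (Sum.inl (σ r) : It m d)) r) then (1 : ℝ) else 0) = 1 := by
      rw [sum_eq_single (univ : Finset (Fin (m + 2)))]
      · simp [sgn, act]
      · intro ε _ hε
        rw [if_neg, mul_zero]
        intro hcon
        apply hε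
        rw [eq_univ_iff_forall]
        intro i
        have := hcon (σ.symm i)
        simpa [act] using this
      · intro h
        exact absurd (mem_univ _) h
    have h6 : ∑ z : Fin 3 × Fin d → K, P (fun r => vl u t z ((fun r => (Sum.inl (σ r) : It m d)) r))
        = NQ (Fin 3 × Fin d) K * P (fun r => u (t (σ r))) := by
      have h7 : ∀ z : Fin 3 × Fin d → K,
          P (fun r => vl u t z ((fun r => (Sum.inl (σ r) : It m d)) r)) =
          P (fun r => u (t (σ r))) := fun z => rfl
      simp only [h7]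
      rw [sum_const, card_univ, nsmul_eq_mul, card_fun]
    rw [h5, h6]
    simp only [gr, Sum.elim_inl]
    ring
  · intro σ _ τ _ h
    ext1 r
    have := congrFun h r
    exact Sum.inl_injective this

end Pool.Agent.K9h91.PC
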