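import Pool.Agent.K9h91.PC.Exp

/-!
# The finite field theorem for irreducible polynomials of bounded degree
-/

set_option autoImplicit false

namespace Pool.Agent.K9h91.PC

open Polynomial Finset H39Gon H39Gon.A2 H39Gon.TaskB

variable {K : Type} [Field K] {V : Type} [AddCommGroup V] {m d : ℕ}

section blocks

/-- block of positions -/
def Bl (d D : ℕ) (n : Fin (m + 2) → ℕ) (i : Fin (m + 2)) : Finset (Fin d) :=
  univ.filter (fun l : Fin d => i.1 * D ≤ l.1 ∧ l.1 < i.1 * D + n i)

theorem card_Bl (D : ℕ) (n : Fin (m + 2) → ℕ) (hn : ∀ i, n i ≤ D) (hd : (m + 2) * D ≤ d)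
    (i : Fin (m + 2)) : (Bl d D n i).card = n i := by
  have hle : i.1 * D + D ≤ d := by
    have h1 : i.1 + 1 ≤ m + 2 := i.2
    calc i.1 * D + D = (i.1 + 1) * D := by ring
      _ ≤ (m + 2) * D := Nat.mul_le_mul_right _ h1
      _ ≤ d := hd
  have hni := hn i
  rw [← card_range (n i)]
  symm
  apply Finset.card_bij (fun a ha => (⟨i.1 * D + a, by
    have := mem_range.1 ha
    omega⟩ : Fin d))
  · intro a ha
    have := mem_range.1 ha
    simp only [Bl, mem_filter, mem_univ, true_and]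
    omega
  · intro a _ b _ h
    simpa using h
  · intro b hb
    simp only [Bl, mem_filter, mem_univ, true_and] at hb
    refine ⟨b.1 - i.1 * D, mem_range.2 (by omega), ?_⟩
    ext
    simp only
    omega

theorem disj_Bl (D : ℕ) (n : Fin (m + 2) → ℕ) (hn : ∀ i, n i ≤ D) (i j : Fin (m + 2))
    (h : i ≠ j) : Disjoint (Bl d D n i) (Bl d D n j) := by
  rw [Finset.disjoint_left]
  intro l hi hj
  simp only [Bl, mem_filter, mem_univ, true_and] at hi hj
  have h1 := hn i
  have h2 := hn j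
  rcases lt_or_gt_of_ne (fun hh => h (Fin.ext hh) : i.1 ≠ j.1) with hij | hij
  · have h3 : (i.1 + 1) * D ≤ j.1 * D := Nat.mul_le_mul_right _ hij
    have h4 : (i.1 + 1) * D = i.1 * D + D := by ring
    omega
  · have h3 : (j.1 + 1) * D ≤ i.1 * D := Nat.mul_le_mul_right _ hij
    have h4 : (j.1 + 1) * D = j.1 * D + D := by ring
    omega

/-- block of slots -/
def BB (d D : ℕ) (n : Fin (m + 2) → ℕ) (x : Fin (m + 2) → Fin 3) (i : Fin (m + 2)) :
    Finset (Fin 3 × Fin d) :=
  univ.filter (fun s : Fin 3 × Fin d => s.1 = x i ∧ s.2 ∈ Bl d D n i)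

theorem disj_BB (D : ℕ) (n : Fin (m + 2) → ℕ) (hn : ∀ i, n i ≤ D) (x : Fin (m + 2) → Fin 3)
    (i j : Fin (m + 2)) (h : i ≠ j) : Disjoint (BB d D n x i) (BB d D n x j) := by
  rw [Finset.disjoint_left]
  intro s hi hj
  simp only [BB, mem_filter, mem_univ, true_and] at hi hj
  exact Finset.disjoint_left.1 (disj_Bl D n hn i j h) hi.2 hj.2

/-- active slots in a group -/
def Se (d D : ℕ) (n : Fin (m + 2) → ℕ) (x : Fin (m + 2) → Fin 3) (ε : Finset (Fin (m + 2)))
    (Y : Fin 3) : Finset (Fin d) :=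
  univ \ (ε.filter (fun i => x i = Y)).biUnion (Bl d D n)

theorem card_Se (D : ℕ) (n : Fin (m + 2) → ℕ) (hn : ∀ i, n i ≤ D) (hd : (m + 2) * D ≤ d)
    (x : Fin (m + 2) → Fin 3) (ε : Finset (Fin (m + 2))) (Y : Fin 3) :
    (∑ i ∈ ε.filter (fun i => x i = Y), n i) + (Se d D n x ε Y).card = d := by
  unfold Se
  have h1 : ((ε.filter (fun i => x i = Y)).biUnion (Bl d D n)).card =
      ∑ i ∈ ε.filter (fun i => x i = Y), n i := by
    rw [card_biUnion (fun i _ j _ h => disj_Bl D n hn i j h)]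
    exact sum_congr rfl fun i _ => card_Bl D n hn hd i
  have h2 := card_sdiff_add_card_eq_card
    (subset_univ ((ε.filter (fun i => x i = Y)).biUnion (Bl d D n)))
  rw [h1, card_univ, Fintype.card_fin] at h2
  omega

theorem mem_Se (D : ℕ) (n : Fin (m + 2) → ℕ) (x : Fin (m + 2) → Fin 3)
    (ε : Finset (Fin (m + 2))) (s : Fin 3 × Fin d) :
    s.2 ∈ Se d D n x ε s.1 ↔ ∀ i ∈ ε, s ∉ BB d D n x i := by
  unfold Se BB
  simp only [mem_sdiff, mem_univ, true_and, mem_biUnion, mem_filter, not_exists, not_and]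
  constructor
  · intro h i hi h1
    exact h i ⟨hi, h1.symm⟩
  · intro h i hi
    exact h i hi.1 hi.2.symm

end blocks

/-- product of the prescribed polynomials in a group -/
noncomputable def ge (t : Fin (m + 2) → K[X]) (x : Fin (m + 2) → Fin 3)
    (ε : Finset (Fin (m + 2))) (Y : Fin 3) : K[X] := ∏ i ∈ ε.filter (fun i => x i = Y), t i

theorem ge_monic (t : Fin (m + 2) → K[X]) (ht : ∀ i, (t i).Monic) (x : Fin (m + 2) → Fin 3)
    (ε : Finset (Fin (m + 2))) (Y : Fin 3) : (ge t x ε Y).Monic :=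
  monic_prod_of_monic _ _ (fun i _ => ht i)

theorem ge_natDegree (t : Fin (m + 2) → K[X]) (ht : ∀ i, (t i).Monic) (x : Fin (m + 2) → Fin 3)
    (ε : Finset (Fin (m + 2))) (Y : Fin 3) :
    (ge t x ε Y).natDegree = ∑ i ∈ ε.filter (fun i => x i = Y), (t i).natDegree :=
  natDegree_prod_of_monic _ _ (fun i _ => ht i)

theorem ge_degOK (D : ℕ) (t : Fin (m + 2) → K[X]) (ht : ∀ i, (t i).Monic)
    (hn : ∀ i, (t i).natDegree ≤ D) (hd : (m + 2) * D ≤ d)
    (x : Fin (m + 2) → Fin 3) (ε : Finset (Fin (m + 2))) :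
    DegOK (ge t x ε) (Se d D (fun i => (t i).natDegree) x ε) := by
  intro Y
  rw [ge_natDegree t ht]
  exact card_Se D (fun i => (t i).natDegree) hn hd x ε Y

theorem ge_sum (D : ℕ) (t : Fin (m + 2) → K[X]) (ht : ∀ i, (t i).Monic)
    (hn : ∀ i, (t i).natDegree ≤ D)
    (x : Fin (m + 2) → Fin 3) (ε : Finset (Fin (m + 2))) :
    (ge t x ε 0).natDegree + (ge t x ε 1).natDegree + (ge t x ε 2).natDegree ≤ (m + 2) * D := by
  rw [← Fin.sum_univ_three (fun Y => (ge t x ε Y).natDegree)]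
  simp only [ge_natDegree t ht]
  rw [Finset.sum_fiberwise]
  calc ∑ i ∈ ε, (t i).natDegree ≤ ∑ i ∈ ε, D := sum_le_sum fun i _ => hn i
    _ = ε.card * D := by simp
    _ ≤ (m + 2) * D := by
      refine Nat.mul_le_mul_right _ ?_
      simpa using card_le_univ ε

theorem ge_coprime (t : Fin (m + 2) → K[X]) (x : Fin (m + 2) → Fin 3)
    (hx : ∀ i j, x i ≠ x j → IsCoprime (t i) (t j))
    (ε : Finset (Fin (m + 2))) (X Y : Fin 3) (h : X ≠ Y) :
    IsCoprime (ge t x ε X) (ge t x ε Y) := by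
  unfold ge
  apply IsCoprime.prod_left
  intro i hi
  apply IsCoprime.prod_right
  intro j hj
  rw [mem_filter] at hi hj
  apply hx
  rw [hi.2, hj.2]
  exact h

/-- polynomial of a group for a configuration -/
noncomputable def Ae (D : ℕ) (t : Fin (m + 2) → K[X]) (x : Fin (m + 2) → Fin 3)
    (ε : Finset (Fin (m + 2))) (z : Fin 3 × Fin d → K) (Y : Fin 3) : K[X] :=
  ge t x ε Y * ∏ l ∈ Se d D (fun i => (t i).natDegree) x ε Y, (X - C (z (Y, l)))

theorem Ae_monic (D : ℕ) (t : Fin (m + 2) → K[X]) (ht : ∀ i, (t i).Monic)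
    (x : Fin (m + 2) → Fin 3) (ε : Finset (Fin (m + 2))) (z : Fin 3 × Fin d → K) (Y : Fin 3) :
    (Ae D t x ε z Y).Monic :=
  (ge_monic t ht x ε Y).mul (monic_prod_of_monic _ _ (fun _ _ => monic_X_sub_C _))

theorem Ae_natDegree (D : ℕ) (t : Fin (m + 2) → K[X]) (ht : ∀ i, (t i).Monic)
    (hn : ∀ i, (t i).natDegree ≤ D) (hd : (m + 2) * D ≤ d)
    (x : Fin (m + 2) → Fin 3) (ε : Finset (Fin (m + 2))) (z : Fin 3 × Fin d → K) (Y : Fin 3) :
    (Ae D t x ε z Y).natDegree = d := by
  unfold Ae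
  rw [(ge_monic t ht x ε Y).natDegree_mul (monic_prod_of_monic _ _ (fun _ _ => monic_X_sub_C _)),
    natDegree_prod_of_monic _ _ (fun i _ => monic_X_sub_C _)]
  simp only [natDegree_X_sub_C, sum_const, smul_eq_mul, mul_one]
  exact ge_degOK D t ht hn hd x ε Y

theorem u_one (u : K[X] → V) (hu : ∀ a b : K[X], a.Monic → b.Monic → u (a * b) = u a + u b) :
    u 1 = 0 := by
  have := hu 1 1 monic_one monic_one
  rw [mul_one] at this
  simpa using this

theorem u_prod (u : K[X] → V) (hu : ∀ a b : K[X], a.Monic → b.Monic → u (a * b) = u a + u b)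
    {α : Type} (s : Finset α) (f : α → K[X]) (hf : ∀ i ∈ s, (f i).Monic) :
    u (∏ i ∈ s, f i) = ∑ i ∈ s, u (f i) := by
  classical
  induction s using Finset.induction_on with
  | empty => simpa using u_one u hu
  | insert a s ha ih =>
    rw [prod_insert ha, sum_insert ha, hu _ _ (hf a (mem_insert_self _ _))
      (monic_prod_of_monic _ _ (fun i hi => hf i (mem_insert_of_mem hi))),
      ih (fun i hi => hf i (mem_insert_of_mem hi))]

theorem sum_items (D : ℕ) (u : K[X] → V)
    (hu : ∀ a b : K[X], a.Monic → b.Monic → u (a * b) = u a + u b)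
    (t : Fin (m + 2) → K[X]) (ht : ∀ i, (t i).Monic)
    (x : Fin (m + 2) → Fin 3) (ε : Finset (Fin (m + 2))) (z : Fin 3 × Fin d → K)
    (r : Fin (m + 2)) :
    ∑ a : It m d, Gc x (BB d D (fun i => (t i).natDegree) x) ε r a • vl u t z a =
      ∑ Y : Fin 3, cz r Y • u (Ae D t x ε z Y) := by
  classical
  rw [Fintype.sum_sum_type]
  have h1 : ∀ Y : Fin 3, u (Ae D t x ε z Y) = ∑ i ∈ ε.filter (fun i => x i = Y), u (t i) +
      ∑ l ∈ Se d D (fun i => (t i).natDegree) x ε Y, u (X - C (z (Y, l))) := by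
    intro Y
    unfold Ae
    rw [hu _ _ (ge_monic t ht x ε Y) (monic_prod_of_monic _ _ (fun _ _ => monic_X_sub_C _))]
    unfold ge
    rw [u_prod u hu _ _ (fun i _ => ht i), u_prod u hu _ _ (fun i _ => monic_X_sub_C _)]
  simp only [h1, smul_add]
  rw [sum_add_distrib]
  congr 1
  · have h2 : ∀ Y : Fin 3, cz r Y • ∑ i ∈ ε.filter (fun i => x i = Y), u (t i) =
        ∑ i ∈ ε.filter (fun i => x i = Y), cz r (x i) • u (t i) := by
      intro Y
      rw [smul_sum]
      refine sum_congr rfl fun i hi => ?_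
      rw [(mem_filter.1 hi).2]
    simp only [h2]
    rw [Finset.sum_fiberwise, ← Finset.sum_ite_mem_eq ε (fun i => cz r (x i) • u (t i))]
    refine sum_congr rfl fun i _ => ?_
    by_cases hi : i ∈ ε
    · simp [Gc, act, gr, vl, hi]
    · simp [Gc, act, vl, hi]
  · rw [Fintype.sum_prod_type]
    refine sum_congr rfl fun Y _ => ?_
    rw [smul_sum, ← Finset.sum_ite_mem_eq (Se d D (fun i => (t i).natDegree) x ε Y)
      (fun l => cz r Y • u (X - C (z (Y, l))))]
    refine sum_congr rfl fun l _ => ?_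
    have h3 := mem_Se D (fun i => (t i).natDegree) x ε ((Y, l) : Fin 3 × Fin d)
    by_cases hl : l ∈ Se d D (fun i => (t i).natDegree) x ε Y
    · have h4 := h3.1 hl
      rw [if_pos hl]
      unfold Gc
      rw [if_pos (by simpa [act] using h4)]
      simp [gr, vl]
    · have h4 := fun hh => hl (h3.2 hh)
      rw [if_neg hl]
      unfold Gc
      rw [if_neg (by simpa [act] using h4)]
      simp

/-- the value is zero when the weight is nonzero -/
theorem Fe_zero (D : ℕ) (P : MultilinearMap ℤ (fun _ : Fin (m + 2) => V) ℝ) (u : K[X] → V)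
    (hu : ∀ a b : K[X], a.Monic → b.Monic → u (a * b) = u a + u b)
    (hrel : ∀ A : Fin 3 → K[X], (∀ Y, (A Y).Monic) →
      (∀ Y Y', (A Y).natDegree = (A Y').natDegree) →
        ∀ l : Fin 3 → Kˣ, ∑ Y : Fin 3, C (l Y : K) * A Y = 0 →
        P (fun r => ∑ Y : Fin 3, cz r Y • u (A Y)) = 0)
    (t : Fin (m + 2) → K[X]) (ht : ∀ i, (t i).Monic)
    (hn : ∀ i, (t i).natDegree ≤ D) (hd : (m + 2) * D ≤ d)
    (x : Fin (m + 2) → Fin 3) (ε : Finset (Fin (m + 2))) (z : Fin 3 × Fin d → K)
    (h : Wg (ge t x ε) (Se d D (fun i => (t i).natDegree) x ε) z ≠ 0) :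
    Fe P u t x (BB d D (fun i => (t i).natDegree) x) ε z = 0 := by
  unfold Fe
  simp only [sum_items D u hu t ht x ε z]
  have hne : Nonempty {l : Fin 3 → Kˣ // ∑ Y : Fin 3, C (l Y : K) *
      (ge t x ε Y * ∏ i ∈ Se d D (fun i => (t i).natDegree) x ε Y, (X - C (z (Y, i)))) = 0} := by
    by_contra hcon
    rw [not_nonempty_iff] at hcon
    apply h
    unfold Wg
    rw [Nat.card_of_isEmpty]
    simp
  obtain ⟨l, hl⟩ := hne
  exact hrel (Ae D t x ε z) (Ae_monic D t ht x ε z)
    (fun Y Y' => by rw [Ae_natDegree D t ht hn hd, Ae_natDegree D t ht hn hd]) l hl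

theorem abs_cz (r : Fin (m + 2)) (Y : Fin 3) : |(cz r Y : ℝ)| ≤ 1 := by
  unfold cz
  split_ifs
  · rw [c0z_cast]
    exact abs_c0 Y
  · rw [c1z_cast]
    exact abs_c1 Y

theorem abs_Gc (x : Fin (m + 2) → Fin 3) (B : Fin (m + 2) → Finset (Fin 3 × Fin d))
    (ε : Finset (Fin (m + 2))) (r : Fin (m + 2)) (a : It m d) : |(Gc x B ε r a : ℝ)| ≤ 1 := by
  unfold Gc
  split_ifs
  · exact abs_cz _ _
  · simp

theorem Fe_err [Fintype K] [DecidableEq K] (D : ℕ)
    (P : MultilinearMap ℤ (fun _ : Fin (m + 2) => V) ℝ) (u : K[X] → V)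
    (t : Fin (m + 2) → K[X]) (x : Fin (m + 2) → Fin 3) (ε : Finset (Fin (m + 2)))
    (W : (Fin 3 × Fin d → K) → ℝ) (M E : ℝ) (hE : 0 ≤ E)
    (herr : ∀ T : Finset (Fin 3 × Fin d),
      (∀ a ∈ T, a.2 ∈ Se d D (fun i => (t i).natDegree) x ε a.1) → T.card ≤ m + 2 →
      ∀ (φ : (Fin 3 × Fin d → K) → ℝ), (∀ z z', (∀ a ∈ T, z a = z' a) → φ z = φ z') →
      (∀ z, |φ z| ≤ M) → |∑ z, W z * φ z| ≤ E)
    (hM : ∀ (J : Fin (m + 2) → It m d) (z : Fin 3 × Fin d → K),
      |P (fun r => vl u t z (J r))| ≤ M) :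
    |∑ z : Fin 3 × Fin d → K,
      W z * Fe P u t x (BB d D (fun i => (t i).natDegree) x) ε z| ≤
      ((m : ℝ) + 2 + 3 * d) ^ (m + 2) * E := by
  classical
  set B := BB d D (fun i => (t i).natDegree) x with hB
  have h2 : ∀ z : Fin 3 × Fin d → K, Fe P u t x B ε z = ∑ J : Fin (m + 2) → It m d,
      (∏ r, (Gc x B ε r (J r) : ℝ)) * P (fun r => vl u t z (J r)) := by
    intro z
    unfold Fe
    rw [map_lincomb]
  have h3 : ∑ z : Fin 3 × Fin d → K, W z * Fe P u t x B ε z = ∑ J : Fin (m + 2) → It m d,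
      (∏ r, (Gc x B ε r (J r) : ℝ)) * ∑ z : Fin 3 × Fin d → K,
        W z * P (fun r => vl u t z (J r)) := by
    simp only [h2, mul_sum]
    rw [sum_comm]
    refine sum_congr rfl fun J _ => sum_congr rfl fun z _ => ?_
    ring
  rw [h3]
  calc |∑ J : Fin (m + 2) → It m d,
      (∏ r, (Gc x B ε r (J r) : ℝ)) * ∑ z : Fin 3 × Fin d → K,
        W z * P (fun r => vl u t z (J r))|
      ≤ ∑ J : Fin (m + 2) → It m d, |(∏ r, (Gc x B ε r (J r) : ℝ)) *
        ∑ z : Fin 3 × Fin d → K, W z * P (fun r => vl u t z (J r))| := abs_sum_le_sum_abs _ _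
    _ ≤ ∑ J : Fin (m + 2) → It m d, E := by
        refine sum_le_sum fun J _ => ?_
        by_cases hJ : ∀ r, act B ε (J r)
        · have h4 := herr (univ.filter (fun s => ∃ r, J r = Sum.inr s)) (by
            intro s hs
            obtain ⟨r, hr⟩ := (mem_filter.1 hs).2
            rw [mem_Se]
            have := hJ r
            rw [hr] at this
            exact this) (by
            have h5 : (univ.filter (fun s : Fin 3 × Fin d => ∃ r, J r = Sum.inr s)).card =
                ((univ.filter (fun s : Fin 3 × Fin d => ∃ r, J r = Sum.inr s)).image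
                  (fun s => (Sum.inr s : It m d))).card :=
              (card_image_of_injective _ Sum.inr_injective).symm
            rw [h5]
            have h6 : ((univ.filter (fun s : Fin 3 × Fin d => ∃ r, J r = Sum.inr s)).image
                  (fun s => (Sum.inr s : It m d))) ⊆ univ.image J := by
              intro a ha
              obtain ⟨s, hs, rfl⟩ := mem_image.1 ha
              obtain ⟨r, hr⟩ := (mem_filter.1 hs).2
              exact mem_image.2 ⟨r, mem_univ _, hr⟩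
            refine (card_le_card h6).trans (card_image_le.trans ?_)
            simp) (fun z => P (fun r => vl u t z (J r))) (by
            intro z z' hzz
            congr 1
            funext r
            rcases hr : J r with i | s
            · rfl
            · simp only [vl, Sum.elim_inr]
              rw [hzz s (mem_filter.2 ⟨mem_univ _, r, hr⟩)]) (fun z => hM J z)
          rw [abs_mul, abs_prod]
          calc (∏ r, |(Gc x B ε r (J r) : ℝ)|) *
              |∑ z : Fin 3 × Fin d → K, W z * P (fun r => vl u t z (J r))|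
              ≤ 1 * E := by
                refine mul_le_mul ?_ h4 (abs_nonneg _) (by norm_num)
                exact prod_le_one (fun i _ => abs_nonneg _) (fun i _ => abs_Gc _ _ _ _ _)
            _ = E := one_mul E
        · rw [prod_Gc, if_neg hJ]
          simpa using hE
    _ = ((m : ℝ) + 2 + 3 * d) ^ (m + 2) * E := by
        rw [sum_const, card_univ, nsmul_eq_mul]
        simp

end Pool.Agent.K9h91.PC
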