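import Pool.Agent.K9h91.PC.FT

/-!
# The finite field theorem for irreducible polynomials of bounded degree: end of the proof
-/

set_option autoImplicit false

namespace Pool.Agent.K9h91.PC

open Polynomial Finset H39Gon H39Gon.A2 H39Gon.TaskB

open Classical in
/-- the groups of the prescribed polynomials -/
noncomputable def xg {K : Type} [Field K] {m : ℕ} (t : Fin (m + 2) → K[X])
    (i : Fin (m + 2)) : Fin 3 := if t i = t 0 then 2 else 0

theorem perm_term {K : Type} [Field K] {V : Type} [AddCommGroup V] {m : ℕ}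
    (P : MultilinearMap ℤ (fun _ : Fin (m + 2) => V) ℝ) (u : K[X] → V)
    (hsym : ∀ (σ : Equiv.Perm (Fin (m + 2))) (w : Fin (m + 2) → V), σ 0 = 0 → P (w ∘ σ) = P w)
    (t : Fin (m + 2) → K[X]) (σ : Equiv.Perm (Fin (m + 2))) (h : t (σ 0) = t 0) :
    (∏ r, (cz r (xg t (σ r)) : ℝ)) * P (fun r => u (t (σ r))) =
      (∏ r, c1 (xg t r)) * P (fun r => u (t r)) := by
  have h1 : (∏ r, (cz r (xg t (σ r)) : ℝ)) = ∏ r, c1 (xg t r) := by
    rw [← Equiv.prod_comp σ (fun r => c1 (xg t r))]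
    refine prod_congr rfl fun r _ => ?_
    unfold cz
    split_ifs with hr
    · subst hr
      rw [c0z_cast]
      simp [c0, c1, xg, h]
    · rw [c1z_cast]
  rw [h1]
  congr 1
  set w : Fin (m + 2) → V := fun r => u (t r) with hw
  have h2 : w ∘ (Equiv.swap 0 (σ 0)) = w := by
    funext i
    simp only [Function.comp, hw]
    by_cases h0 : i = 0
    · subst h0
      simp [h]
    · by_cases h1 : i = σ 0
      · subst h1
        simp [h]
      · rw [Equiv.swap_apply_of_ne_of_ne h0 h1]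
  have h3 : w ∘ (Equiv.swap 0 (σ 0) * σ : Equiv.Perm (Fin (m + 2))) = w ∘ σ := by
    rw [Equiv.Perm.coe_mul, ← Function.comp_assoc, h2]
  change P (w ∘ σ) = P w
  rw [← h3]
  exact hsym _ w (by simp)

theorem perm_sum {K : Type} [Field K] {V : Type} [AddCommGroup V] {m : ℕ}
    (P : MultilinearMap ℤ (fun _ : Fin (m + 2) => V) ℝ) (u : K[X] → V)
    (hsym : ∀ (σ : Equiv.Perm (Fin (m + 2))) (w : Fin (m + 2) → V), σ 0 = 0 → P (w ∘ σ) = P w)
    (t : Fin (m + 2) → K[X]) :
    |P (fun r => u (t r))| ≤ |∑ σ : Equiv.Perm (Fin (m + 2)),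
      (∏ r, (cz r (xg t (σ r)) : ℝ)) * P (fun r => u (t (σ r)))| := by
  classical
  have h1 : ∀ σ : Equiv.Perm (Fin (m + 2)),
      (∏ r, (cz r (xg t (σ r)) : ℝ)) * P (fun r => u (t (σ r))) =
      if t (σ 0) = t 0 then (∏ r, c1 (xg t r)) * P (fun r => u (t r)) else 0 := by
    intro σ
    split_ifs with hσ
    · exact perm_term P u hsym t σ hσ
    · rw [prod_eq_zero (mem_univ (0 : Fin (m + 2))), zero_mul]
      unfold cz
      rw [if_pos rfl, c0z_cast]
      simp [c0, xg, hσ]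
  simp only [h1]
  rw [← sum_filter, sum_const, nsmul_eq_mul, abs_mul, abs_mul, Nat.abs_cast]
  have hs1 : |∏ r, c1 (xg t r)| = 1 := by
    rw [abs_prod]
    refine prod_eq_one fun i _ => ?_
    by_cases h : t i = t 0 <;> simp [c1, xg, h]
  rw [hs1, one_mul]
  have hcard : (1 : ℝ) ≤
      ((univ.filter fun σ : Equiv.Perm (Fin (m + 2)) => t (σ 0) = t 0).card : ℝ) := by
    have : 0 < (univ.filter fun σ : Equiv.Perm (Fin (m + 2)) => t (σ 0) = t 0).card :=
      card_pos.2 ⟨1, by simp⟩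
    exact_mod_cast this
  exact le_mul_of_one_le_left (abs_nonneg _) hcard

theorem irr_finite (K : Type) [Field K] [Finite K] (m D : ℕ) :
    {t : Fin (m + 2) → K[X] | ∀ i, (t i).Monic ∧ Irreducible (t i) ∧
      (t i).natDegree ≤ D}.Finite := by
  have h1 : ((degreeLT K (D + 1) : Submodule K K[X]) : Set K[X]).Finite := by
    have : Finite (degreeLT K (D + 1)) := Finite.of_equiv _ (degreeLTEquiv K (D + 1)).toEquiv.symm
    exact Set.toFinite _
  refine (Set.Finite.pi' (fun _ : Fin (m + 2) => h1)).subset ?_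
  intro t ht i
  rw [SetLike.mem_coe, mem_degreeLT]
  have h2 := ht i
  rw [degree_eq_natDegree h2.1.ne_zero]
  exact_mod_cast Nat.lt_succ_of_le h2.2.2

/-- the finite field theorem -/
theorem ftgen (m D : ℕ) (hD : 1 ≤ D) : ∃ q0 : ℕ, ∀ (K : Type) [Field K] [Fintype K]
    [DecidableEq K], q0 ≤ Fintype.card K →
    ∀ (V : Type) [AddCommGroup V] (P : MultilinearMap ℤ (fun _ : Fin (m + 2) => V) ℝ)
      (u : K[X] → V),
      (∀ (σ : Equiv.Perm (Fin (m + 2))) (w : Fin (m + 2) → V), σ 0 = 0 → P (w ∘ σ) = P w) →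
      (∀ a b : K[X], a.Monic → b.Monic → u (a * b) = u a + u b) →
      (∑ a : K, u (X - C a) = 0) →
      (∀ A : Fin 3 → K[X], (∀ Y, (A Y).Monic) →
        (∀ Y Y', (A Y).natDegree = (A Y').natDegree) →
        ∀ l : Fin 3 → Kˣ, ∑ Y : Fin 3, C (l Y : K) * A Y = 0 →
        P (fun r => ∑ Y : Fin 3, cz r Y • u (A Y)) = 0) →
      ∀ t : Fin (m + 2) → K[X],
        (∀ i, (t i).Monic ∧ Irreducible (t i) ∧ (t i).natDegree ≤ D) →
        P (fun r => u (t r)) = 0 := by
  classical
  set N : ℕ := (m + 2) * (D + 1) with hN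
  set d : ℕ := 3 * N with hd
  set Z : ℝ := 2 ^ (m + 2) * ((m : ℝ) + 2 + 3 * d) ^ (m + 2) with hZ
  have hZpos : 0 < Z := by positivity
  obtain ⟨q0, hq0⟩ := err_phi N d hd.ge (1 / (2 * Z)) (by positivity)
  refine ⟨q0, ?_⟩
  intro K _ _ _ hK V _ P u hsym hu hbal hrel
  by_contra hcon
  push Not at hcon
  obtain ⟨t0, ht0, ht0P⟩ := hcon
  obtain ⟨t, ht, htmax⟩ := Set.exists_max_image _ (fun t : Fin (m + 2) → K[X] =>
    |P (fun r => u (t r))|) (irr_finite K m D) ⟨t0, ht0⟩
  set M : ℝ := |P (fun r => u (t r))| with hM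
  have hM0 : 0 < M := lt_of_lt_of_le (abs_pos.2 ht0P) (htmax t0 ht0)
  have htm : ∀ i, (t i).Monic := fun i => (ht i).1
  have htn : ∀ i, (t i).natDegree ≤ D := fun i => (ht i).2.2
  have hdD : (m + 2) * D ≤ d := by
    have : (m + 2) * D ≤ N := Nat.mul_le_mul_left _ (Nat.le_succ D)
    omega
  have hq : (1 : ℝ) < Fintype.card K := by exact_mod_cast Fintype.one_lt_card
  have hw : 0 < wbar (Fintype.card K) d := by
    unfold wbar
    have : (0 : ℝ) < (Fintype.card K : ℝ) - 1 := by linarith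
    positivity
  set w := wbar (Fintype.card K) d with hwdef
  have hNQpos : 0 < NQ (Fin 3 × Fin d) K := NQ_pos
  set B := BB d D (fun i => (t i).natDegree) (xg t) with hB
  have hJM : ∀ (J : Fin (m + 2) → It m d) (z : Fin 3 × Fin d → K),
      |P (fun r => vl u t z (J r))| ≤ M := by
    intro J z
    set t' : Fin (m + 2) → K[X] := fun r => Sum.elim t (fun s => X - C (z s)) (J r) with ht'
    have h1 : (fun r => vl u t z (J r)) = (fun r => u (t' r)) := by
      funext r
      simp only [ht', vl]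
      rcases J r with i | s
      · rfl
      · rfl
    rw [h1]
    apply htmax t'
    intro r
    simp only [ht']
    rcases J r with i | s
    · exact ht i
    · simp only [Sum.elim_inr]
      exact ⟨monic_X_sub_C _, irreducible_X_sub_C _, by rw [natDegree_X_sub_C]; exact hD⟩
  have hcop : ∀ i j, xg t i ≠ xg t j → IsCoprime (t i) (t j) := by
    intro i j hij
    have hne : t i ≠ t j := by
      intro h
      apply hij
      unfold xg
      rw [h]
    rw [(ht i).2.1.coprime_iff_not_dvd]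
    intro hdvd
    apply hne
    exact eq_of_monic_of_associated (htm i) (htm j)
      ((ht i).2.1.associated_of_dvd (ht j).2.1 hdvd)
  have hE : ∀ ε : Finset (Fin (m + 2)), |∑ z : Fin 3 × Fin d → K, Fe P u t (xg t) B ε z| ≤
      ((m : ℝ) + 2 + 3 * d) ^ (m + 2) * (M * (1 / (2 * Z) * NQ (Fin 3 × Fin d) K)) := by
    intro ε
    have h1 := Fe_err D P u t (xg t) ε
      (fun z => Wg (ge t (xg t) ε) (Se d D (fun i => (t i).natDegree) (xg t) ε) z - w) M
      (M * (1 / (2 * Z) * w * NQ (Fin 3 × Fin d) K)) (by positivity) (by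
        intro T hT hTc φ hφ hφM
        refine hq0 K hK (ge t (xg t) ε) (Se d D (fun i => (t i).natDegree) (xg t) ε)
          (ge_degOK D t htm htn hdD (xg t) ε) (ge_monic t htm (xg t) ε)
          (ge_coprime t (xg t) hcop ε) T hT ?_ φ M hφ hφM
        have h2 := ge_sum D t htm htn (xg t) ε
        have h3 : N = (m + 2) * D + (m + 2) := by rw [hN]; ring
        omega) hJM
    rw [← hB] at h1
    have h2 : ∑ z : Fin 3 × Fin d → K,
        (Wg (ge t (xg t) ε) (Se d D (fun i => (t i).natDegree) (xg t) ε) z - w) *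
          Fe P u t (xg t) B ε z = - (w * ∑ z : Fin 3 × Fin d → K, Fe P u t (xg t) B ε z) := by
      rw [mul_sum, ← sum_neg_distrib]
      refine sum_congr rfl fun z _ => ?_
      by_cases h0 : Wg (ge t (xg t) ε) (Se d D (fun i => (t i).natDegree) (xg t) ε) z = 0
      · rw [h0]
        ring
      · rw [hB, Fe_zero D P u hu hrel t htm htn hdD (xg t) ε z h0]
        ring
    rw [h2, abs_neg, abs_mul, abs_of_pos hw] at h1
    have h3 : ((m : ℝ) + 2 + 3 * d) ^ (m + 2) * (M * (1 / (2 * Z) * w * NQ (Fin 3 × Fin d) K)) =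
        w * (((m : ℝ) + 2 + 3 * d) ^ (m + 2) * (M * (1 / (2 * Z) * NQ (Fin 3 × Fin d) K))) := by
      ring
    rw [h3] at h1
    exact le_of_mul_le_mul_left h1 hw
  have hmain := main_sum P u hbal t (xg t) B
    (fun i j h => disj_BB D (fun i => (t i).natDegree) htn (xg t) i j h)
  have hle : NQ (Fin 3 × Fin d) K * M ≤ 2 ^ (m + 2) *
      (((m : ℝ) + 2 + 3 * d) ^ (m + 2) * (M * (1 / (2 * Z) * NQ (Fin 3 × Fin d) K))) := by
    calc NQ (Fin 3 × Fin d) K * M ≤ NQ (Fin 3 × Fin d) K * |∑ σ : Equiv.Perm (Fin (m + 2)),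
          (∏ r, (cz r (xg t (σ r)) : ℝ)) * P (fun r => u (t (σ r)))| :=
          mul_le_mul_of_nonneg_left (perm_sum P u hsym t) hNQpos.le
      _ = |∑ ε : Finset (Fin (m + 2)), sgn ε *
          ∑ z : Fin 3 × Fin d → K, Fe P u t (xg t) B ε z| := by
          rw [hmain, abs_mul, abs_of_pos hNQpos]
      _ ≤ ∑ ε : Finset (Fin (m + 2)), |sgn ε *
          ∑ z : Fin 3 × Fin d → K, Fe P u t (xg t) B ε z| := abs_sum_le_sum_abs _ _
      _ ≤ ∑ ε : Finset (Fin (m + 2)),
          (((m : ℝ) + 2 + 3 * d) ^ (m + 2) * (M * (1 / (2 * Z) * NQ (Fin 3 × Fin d) K))) := by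
          refine sum_le_sum fun ε _ => ?_
          rw [abs_mul]
          unfold sgn
          rw [abs_pow, abs_neg, abs_one, one_pow, one_mul]
          exact hE ε
      _ = _ := by
          rw [sum_const, card_univ, nsmul_eq_mul]
          simp
  have h5 : (2 : ℝ) ^ (m + 2) *
      (((m : ℝ) + 2 + 3 * d) ^ (m + 2) * (M * (1 / (2 * Z) * NQ (Fin 3 × Fin d) K))) =
      (Z * (1 / (2 * Z))) * (NQ (Fin 3 × Fin d) K * M) := by
    rw [hZ]
    ring
  have h6 : Z * (1 / (2 * Z)) = 1 / 2 := by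
    field_simp
  rw [h5, h6] at hle
  have h7 : 0 < NQ (Fin 3 × Fin d) K * M := by positivity
  linarith

end Pool.Agent.K9h91.PC
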