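import Pool.Agent.K9h91.PC.FTB
import Pool.Agent.H39R2.Gon.B

/-!
# Vanishing on divisors of degree zero made of irreducible polynomials of bounded degree
-/

set_option autoImplicit false

namespace Pool.Agent.K9h91.PC

open Polynomial H39Gon H39Gon.TaskB

section abs

variable {V : Type} [AddCommGroup V] {α : Type} [Fintype α]

omit [Fintype α] in
theorem ab_add (q n n' : ℕ) (x y b : V) :
    q • (x + y) - (n + n') • b = (q • x - n • b) + (q • y - n' • b) := by
  rw [smul_add, add_smul]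
  abel

theorem ab_rep_add (x : α → V) (s s' : V) (c c' : α → ℤ) (h : Tors (s - ∑ f, c f • x f))
    (h' : Tors (s' - ∑ f, c' f • x f)) : Tors (s + s' - ∑ f, (c f + c' f) • x f) := by
  have := h.add h'
  convert this using 1
  simp only [add_smul, Finset.sum_add_distrib]
  abel

theorem ab_rep_sub (x : α → V) (s s' : V) (c c' : α → ℤ) (h : Tors (s - ∑ f, c f • x f))
    (h' : Tors (s' - ∑ f, c' f • x f)) : Tors (s - s' - ∑ f, (c f - c' f) • x f) := by
  have := h.sub h'
  convert this using 1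
  simp only [sub_smul, Finset.sum_sub_distrib]
  abel

omit [Fintype α] in
theorem ab_tors_trans (s s' t : V) (h : Tors (s - t)) (h' : Tors (s' - s)) : Tors (s' - t) := by
  have := h'.add h
  convert this using 1
  abel

theorem ab_single [DecidableEq α] (x : α → V) (f : α) :
    Tors (x f - ∑ g, (if g = f then (1 : ℤ) else 0) • x g) := by
  simp only [ite_smul, one_smul, zero_smul, Finset.sum_ite_eq', Finset.mem_univ, if_true,
      sub_self]
  exact Tors.zero

theorem ab_zero (x : α → V) : Tors (0 - ∑ g, (0 : ℤ) • x g) := by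
  simp only [zero_smul, Finset.sum_const_zero, sub_zero]
  exact Tors.zero

theorem ab_smul_rep (q : ℕ) (s b : V) (x : α → V) (c : α → ℤ) (n : α → ℕ)
    (hc : Tors (s - ∑ f, c f • x f)) (hn : ∑ f, c f * (n f : ℤ) = 0) :
    Tors (q • s - ∑ f, c f • (q • x f - n f • b)) := by
  have h1 := hc.nsmul q
  convert h1 using 1
  rw [smul_sub]
  congr 1
  have h2 : ∀ f : α, c f • (q • x f - n f • b) = q • (c f • x f) - (c f * (n f : ℤ)) • b := by
    intro f
    rw [smul_sub, smul_comm, mul_smul, natCast_zsmul]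
  simp only [h2]
  rw [Finset.sum_sub_distrib, ← Finset.sum_smul, hn, zero_smul, sub_zero, ← Finset.smul_sum]

omit [Fintype α] in
theorem ab_c0 (w : Fin 3 → V) : ∑ Y : Fin 3, c0z Y • w Y = w 1 - w 2 := by
  rw [Fin.sum_univ_three]
  simp [c0z, sub_eq_add_neg]

omit [Fintype α] in
theorem ab_c1 (w : Fin 3 → V) : ∑ Y : Fin 3, c1z Y • w Y = w 0 - w 2 := by
  rw [Fin.sum_univ_three]
  simp [c1z, sub_eq_add_neg]

end abs

variable {k : Type} [Field k] {K : Type} [Field K] [Fintype K]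

/-- class of a polynomial over `K` -/
noncomputable def cp (ι : K →+* k) (g : K[X]) : UV (RatFunc k) :=
  cl (algebraMap k[X] (RatFunc k) (g.map ι))

omit [Fintype K] in
theorem map_ne (ι : K →+* k) (g : K[X]) (hg : g ≠ 0) :
    algebraMap k[X] (RatFunc k) (g.map ι) ≠ 0 :=
  RatFunc.algebraMap_ne_zero (by rwa [Ne, Polynomial.map_eq_zero])

omit [Fintype K] in
theorem cp_mul (ι : K →+* k) (a b : K[X]) (ha : a ≠ 0) (hb : b ≠ 0) :
    cp ι (a * b) = cp ι a + cp ι b := by
  unfold cp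
  rw [Polynomial.map_mul, map_mul, cl_mul (map_ne ι a ha) (map_ne ι b hb)]

/-- the element `q [g] - deg g ∑_b [X - b]` -/
noncomputable def ug (ι : K →+* k) (g : K[X]) : UV (RatFunc k) :=
  (Fintype.card K) • cp ι g - g.natDegree • ∑ b : K, cl (xx (ι b))

theorem ug_mul (ι : K →+* k) (a b : K[X]) (ha : a.Monic) (hb : b.Monic) :
    ug ι (a * b) = ug ι a + ug ι b := by
  unfold ug
  rw [cp_mul ι a b ha.ne_zero hb.ne_zero, ha.natDegree_mul hb]
  exact ab_add _ _ _ _ _ _

theorem ug_bal (ι : K →+* k) : ∑ a : K, ug ι (X - C a) = 0 := by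
  have h : ∀ a : K, ug ι (X - C a) = mm ι a := by
    intro a
    unfold ug cp mm mV
    rw [natDegree_X_sub_C, one_smul, Polynomial.map_sub, Polynomial.map_X, Polynomial.map_C,
      ← xx_eq]
  simp only [h]
  exact sum_mm ι

theorem ug_rel {m : ℕ} (hk : ConstTors k) (ι : K →+* k)
    (Q : MultilinearMap ℤ (fun _ : Fin (m + 1) => UV (RatFunc k)) (UV (RatFunc k) →ₗ[ℤ] ℚ))
    (hQ : ∀ f : RatFunc k, f ≠ 0 → f ≠ 1 → Q (fun _ => cl f) (cl (1 - f)) = 0)
    (A : Fin 3 → K[X]) (hA : ∀ Y, (A Y).Monic)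
    (hdeg : ∀ Y Y', (A Y).natDegree = (A Y').natDegree) (l : Fin 3 → Kˣ)
    (hl : ∑ Y : Fin 3, C (l Y : K) * A Y = 0) :
    PS Q (fun r => ∑ Y : Fin 3, cz r Y • ug ι (A Y)) = 0 := by
  set c : Fin 3 → RatFunc k := fun Y => RatFunc.C (ι (l Y : K)) with hc
  set e : Fin 3 → RatFunc k := fun Y => algebraMap k[X] (RatFunc k) ((A Y).map ι) with he
  have hC : ∀ Y, (ι (l Y : K)) ≠ 0 := fun Y => by
    rw [Ne, map_eq_zero]; exact Units.ne_zero _
  have hc0 : ∀ Y, c Y ≠ 0 := fun Y => by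
    rw [hc]
    simp only
    rw [Ne, map_eq_zero]; exact hC Y
  have he0 : ∀ Y, e Y ≠ 0 := fun Y => map_ne ι (A Y) (hA Y).ne_zero
  have ha0 : ∀ Y, c Y * e Y ≠ 0 := fun Y => mul_ne_zero (hc0 Y) (he0 Y)
  have hsum : c 0 * e 0 + c 1 * e 1 + c 2 * e 2 = 0 := by
    have h1 := congrArg ((algebraMap k[X] (RatFunc k)).comp (mapRingHom ι)) hl
    rw [map_sum, map_zero, Fin.sum_univ_three] at h1
    simp only [map_mul, RingHom.comp_apply, coe_mapRingHom,
      Polynomial.map_C, RatFunc.algebraMap_C] at h1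
    exact h1
  set f : RatFunc k := -(c 0 * e 0) / (c 2 * e 2) with hf
  have hf0 : f ≠ 0 := div_ne_zero (neg_ne_zero.2 (ha0 0)) (ha0 2)
  have hf1 : 1 - f = - (c 1 * e 1) / (c 2 * e 2) := by
    rw [hf, eq_div_iff (ha0 2), sub_mul, div_mul_cancel₀ _ (ha0 2)]
    linear_combination hsum
  have hf2 : f ≠ 1 := by
    intro h
    rw [h, sub_self] at hf1
    exact (div_ne_zero (neg_ne_zero.2 (ha0 1)) (ha0 2)) hf1.symm
  have hq := hQ f hf0 hf2
  have e1 : PS Q (Fin.cons ((Fintype.card K) • cl (1 - f))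
      (fun _ => (Fintype.card K) • cl f) : Fin (m + 2) → UV (RatFunc k)) = 0 := by
    obtain ⟨c, -, hc⟩ := PS_diag Q ((Fintype.card K) • cl f) ((Fintype.card K) • cl (1 - f))
    rw [hc]
    have h2 : Q (fun _ => (Fintype.card K) • cl f) =
        (∏ _i : Fin (m + 1), (Fintype.card K : ℤ)) • Q (fun _ => cl f) := by
      rw [← MultilinearMap.map_smul_univ]
      simp
    rw [h2, LinearMap.smul_apply, map_nsmul, hq]
    simp
  have key : ∀ Y, Tors ((Fintype.card K) • cl (-(c Y * e Y) / (c 2 * e 2)) -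
      (ug ι (A Y) - ug ι (A 2))) := by
    intro Y
    have h1 : cl (-(c Y * e Y) / (c 2 * e 2)) = cl (-1 : RatFunc k) + (cl (c Y) + cl (e Y)) -
        (cl (c 2) + cl (e 2)) := by
      rw [neg_div, ← neg_one_mul, cl_mul (by simp) (div_ne_zero (ha0 Y) (ha0 2)),
        cl_div (ha0 Y) (ha0 2), cl_mul (hc0 Y) (he0 Y), cl_mul (hc0 2) (he0 2)]
      abel
    rw [h1]
    unfold ug
    rw [hdeg Y 2]
    exact abs_tors (Fintype.card K) (A 2).natDegree (cl (-1 : RatFunc k)) (cl (c Y)) (cl (c 2))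
      (cl (e Y)) (cl (e 2)) (∑ b : K, cl (xx (ι b)))
      ((tors_neg_one.add (tors_C hk _ (hC Y))).sub (tors_C hk _ (hC 2)))
  rw [← e1]
  symm
  apply map_eq_of_tors
  intro i
  induction i using Fin.cases with
  | zero =>
    simp only [Fin.cons_zero, cz, if_true]
    rw [hf1, ab_c0 (fun Y => ug ι (A Y))]
    exact key 1
  | succ j =>
    simp only [Fin.cons_succ, cz, Fin.succ_ne_zero, if_false]
    rw [hf, ab_c1 (fun Y => ug ι (A Y))]
    exact key 0

/-- monic irreducible polynomials of degree at most `D` -/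
def Irr (K : Type) [Field K] (D : ℕ) : Type :=
  {f : K[X] // f.Monic ∧ Irreducible f ∧ f.natDegree ≤ D}

instance (D : ℕ) : Finite (Irr K D) := by
  have h1 : Finite (degreeLT K (D + 1)) :=
    Finite.of_equiv _ (degreeLTEquiv K (D + 1)).toEquiv.symm
  refine Finite.of_injective (fun f : Irr K D => (⟨f.1, by
    rw [mem_degreeLT, degree_eq_natDegree f.2.1.ne_zero]
    exact_mod_cast Nat.lt_succ_of_le f.2.2.2⟩ : degreeLT K (D + 1))) ?_
  intro f g h
  apply Subtype.ext
  exact congrArg (fun x : degreeLT K (D + 1) => (x : K[X])) h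

noncomputable instance (D : ℕ) : Fintype (Irr K D) := Fintype.ofFinite _

/-- `s` is a combination of irreducible polynomials of degree at most `D`, of total degree `n` -/
def Rep (ι : K →+* k) (D : ℕ) (s : UV (RatFunc k)) (n : ℤ) : Prop :=
  ∃ c : Irr K D → ℤ, Tors (s - ∑ f, c f • cp ι f.1) ∧ ∑ f, c f * (f.1.natDegree : ℤ) = n

theorem Rep.add {ι : K →+* k} {D : ℕ} {s s' : UV (RatFunc k)} {n n' : ℤ} (h : Rep ι D s n)
    (h' : Rep ι D s' n') : Rep ι D (s + s') (n + n') := by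
  obtain ⟨c, hc, hn⟩ := h
  obtain ⟨c', hc', hn'⟩ := h'
  refine ⟨fun f => c f + c' f, ab_rep_add (fun f : Irr K D => cp ι f.1) s s' c c' hc hc', ?_⟩
  rw [← hn, ← hn', ← Finset.sum_add_distrib]
  exact Finset.sum_congr rfl fun f _ => by ring

theorem Rep.sub {ι : K →+* k} {D : ℕ} {s s' : UV (RatFunc k)} {n n' : ℤ} (h : Rep ι D s n)
    (h' : Rep ι D s' n') : Rep ι D (s - s') (n - n') := by
  obtain ⟨c, hc, hn⟩ := h
  obtain ⟨c', hc', hn'⟩ := h'
  refine ⟨fun f => c f - c' f, ab_rep_sub (fun f : Irr K D => cp ι f.1) s s' c c' hc hc', ?_⟩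
  rw [← hn, ← hn', ← Finset.sum_sub_distrib]
  exact Finset.sum_congr rfl fun f _ => by ring

theorem Rep.tors {ι : K →+* k} {D : ℕ} {s s' : UV (RatFunc k)} {n : ℤ} (h : Rep ι D s n)
    (h' : Tors (s' - s)) : Rep ι D s' n := by
  obtain ⟨c, hc, hn⟩ := h
  exact ⟨c, ab_tors_trans _ _ _ hc h', hn⟩

theorem rep_irr (ι : K →+* k) (D : ℕ) (f : Irr K D) : Rep ι D (cp ι f.1) f.1.natDegree := by
  classical
  exact ⟨fun g => if g = f then 1 else 0, ab_single (fun f : Irr K D => cp ι f.1) f, by simp⟩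

theorem rep_one (ι : K →+* k) (D : ℕ) : Rep ι D (cp ι 1) 0 := by
  have h1 : cp ι (1 : K[X]) = 0 := by
    unfold cp
    rw [Polynomial.map_one, map_one, cl_one]
  rw [h1]
  exact ⟨fun _ => 0, ab_zero _, by simp⟩

theorem rep_monic (ι : K →+* k) (D : ℕ) : ∀ (n : ℕ) (a : K[X]), a.Monic → a.natDegree = n →
    n ≤ D → Rep ι D (cp ι a) n := by
  intro n
  induction n using Nat.strong_induction_on with
  | _ n ih =>
    intro a ha hn hD
    by_cases hu : IsUnit a
    · have h1 : a = 1 := ha.eq_one_of_isUnit hu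
      subst h1
      rw [natDegree_one] at hn
      subst hn
      simpa using rep_one ι D
    · obtain ⟨g, hg, hgi, b, rfl⟩ := exists_monic_irreducible_factor a hu
      have hb : b.Monic := hg.of_mul_monic_left ha
      rw [hg.natDegree_mul hb] at hn
      have hgp := hgi.natDegree_pos
      have h1 := ih b.natDegree (by omega) b hb rfl (by omega)
      have h2 := rep_irr ι D ⟨g, hg, hgi, by omega⟩
      rw [cp_mul ι g b hg.ne_zero hb.ne_zero, ← hn]
      push_cast
      exact h2.add h1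

theorem smul_rep (ι : K →+* k) (D : ℕ) (s : UV (RatFunc k)) (c : Irr K D → ℤ)
    (hc : Tors (s - ∑ f, c f • cp ι f.1)) (hn : ∑ f, c f * (f.1.natDegree : ℤ) = 0) :
    Tors ((Fintype.card K) • s - ∑ f, c f • ug ι f.1) :=
  ab_smul_rep (Fintype.card K) s (∑ b : K, cl (xx (ι b))) (fun f : Irr K D => cp ι f.1) c
    (fun f => f.1.natDegree) hc hn

theorem deg_zero_gen {m : ℕ} (ι : K →+* k) (D : ℕ)
    (Q : MultilinearMap ℤ (fun _ : Fin (m + 1) => UV (RatFunc k)) (UV (RatFunc k) →ₗ[ℤ] ℚ))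
    (hP : ∀ t : Fin (m + 2) → K[X],
        (∀ i, (t i).Monic ∧ Irreducible (t i) ∧ (t i).natDegree ≤ D) →
        PS Q (fun r => ug ι (t r)) = 0)
    (s v : UV (RatFunc k)) (hs : Rep ι D s 0) (hv : Rep ι D v 0) : Q (fun _ => s) v = 0 := by
  classical
  obtain ⟨g, hg, hg0⟩ := hs
  obtain ⟨h, hh, hh0⟩ := hv
  have e1 : PS Q (Fin.cons ((Fintype.card K) • v)
      (fun _ => (Fintype.card K) • s) : Fin (m + 2) → UV (RatFunc k)) = 0 := by
    set G : Fin (m + 2) → (Irr K D → ℤ) := Fin.cons h (fun _ => g) with hG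
    have h1 : PS Q (Fin.cons ((Fintype.card K) • v)
        (fun _ => (Fintype.card K) • s) : Fin (m + 2) → UV (RatFunc k)) =
        PS Q (fun i => ∑ a, G i a • ug ι a.1) := by
      apply map_eq_of_tors
      intro i
      induction i using Fin.cases with
      | zero => simp only [Fin.cons_zero, hG]; exact smul_rep ι D v h hh hh0
      | succ j => simp only [Fin.cons_succ, hG]; exact smul_rep ι D s g hg hg0
    rw [h1, map_lincomb]
    apply Finset.sum_eq_zero
    intro r _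
    rw [hP (fun i => (r i).1) (fun i => (r i).2), mul_zero]
  obtain ⟨c, hc0, hc⟩ := PS_diag Q ((Fintype.card K) • s) ((Fintype.card K) • v)
  rw [hc] at e1
  have h2 : Q (fun _ => (Fintype.card K) • s) =
      (∏ _i : Fin (m + 1), (Fintype.card K : ℤ)) • Q (fun _ => s) := by
    rw [← MultilinearMap.map_smul_univ]
    simp
  rw [h2, LinearMap.smul_apply, map_nsmul] at e1
  have h3 : (Fintype.card K : ℝ) ≠ 0 := by
    have := Fintype.card_pos (α := K)
    positivity
  have h4 := (mul_eq_zero.1 e1).resolve_left hc0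
  have h5 : (∏ _i : Fin (m + 1), (Fintype.card K : ℤ)) • ((Fintype.card K) • (Q (fun _ => s) v))
    = 0 := by exact_mod_cast h4
  have h6 : (Fintype.card K : ℤ) ≠ 0 := by exact_mod_cast h3
  rw [smul_eq_zero, smul_eq_zero] at h5
  rcases h5 with h5 | h5 | h5
  · exact absurd h5 (Finset.prod_ne_zero_iff.2 (fun _ _ => h6))
  · exact absurd h5 (by exact_mod_cast h6)
  · exact h5

end Pool.Agent.K9h91.PC
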