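import Pool.Agent.K9h91.PC.SpanA
import Pool.Agent.H39R2.Gon.Main

/-!
# The duality statement for `k(x)`, `k` an infinite algebraic extension of `F_p`
-/

set_option autoImplicit false

namespace Pool.Agent.K9h91.PC

open Polynomial H39Gon H39Gon.TaskB

variable {k : Type} [Field k]

theorem eval_xx (c : k) (P : k[X]) :
    eval₂ (RatFunc.C (K := k)) (xx c) P = algebraMap k[X] (RatFunc k) (taylor (-c) P) := by
  rw [taylor_apply, xx_eq]
  have h : ((algebraMap k[X] (RatFunc k)).comp (compRingHom (X + C (-c)))) =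
      eval₂RingHom (RatFunc.C (K := k)) (algebraMap k[X] (RatFunc k) (X - C c)) := by
    apply Polynomial.ringHom_ext
    · intro a
      simp
    · simp [sub_eq_add_neg]
  exact (RingHom.congr_fun h P).symm

theorem eval_xx_taylor (c : k) (P : k[X]) :
    eval₂ (RatFunc.C (K := k)) (xx c) (taylor c P) = algebraMap k[X] (RatFunc k) P := by
  rw [eval_xx, taylor_taylor]
  simp

theorem sgi (c : k) : Function.Injective (eval₂RingHom (RatFunc.C (K := k)) ((xx c)⁻¹)) := by
  rw [injective_iff_map_eq_zero]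
  intro P hP
  let _ : Invertible ((xx c)⁻¹) := invertibleOfNonzero (inv_ne_zero (xx_ne_zero c))
  have h1 := (eval₂_reverse_eq_zero_iff (RatFunc.C (K := k)) ((xx c)⁻¹) P).2 hP
  rw [invOf_eq_inv, inv_inv, eval_xx] at h1
  have h2 : taylor (-c) (reverse P) = 0 := by
    by_contra hne
    exact RatFunc.algebraMap_ne_zero hne h1
  rw [taylor_eq_zero, reverse_eq_zero] at h2
  exact h2

/-- the homomorphism `x ↦ 1/(x - c)` -/
noncomputable def sg (c : k) : RatFunc k →+* RatFunc k :=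
  IsFractionRing.lift (A := k[X]) (K := RatFunc k) (sgi c)

theorem sg_alg (c : k) (P : k[X]) :
    sg c (algebraMap k[X] (RatFunc k) P) = eval₂ (RatFunc.C (K := k)) ((xx c)⁻¹) P := by
  unfold sg
  rw [IsFractionRing.lift_algebraMap]
  rfl

theorem sg_rev (c : k) (P : k[X]) :
    sg c (algebraMap k[X] (RatFunc k) (reverse (taylor c P))) * (xx c) ^ P.natDegree =
      algebraMap k[X] (RatFunc k) P := by
  let _ : Invertible (xx c) := invertibleOfNonzero (xx_ne_zero c)
  have h1 := eval₂_reverse_mul_pow (RatFunc.C (K := k)) (xx c) (taylor c P)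
  rw [natDegree_taylor, invOf_eq_inv, eval_xx_taylor] at h1
  rw [sg_alg]
  exact h1

theorem sg_X (c : k) : sg c (algebraMap k[X] (RatFunc k) X) = (xx c)⁻¹ := by
  rw [sg_alg, eval₂_X]

/-- class of a polynomial -/
noncomputable def ca (a : k[X]) : UV (RatFunc k) := cl (algebraMap k[X] (RatFunc k) a)

theorem ca_mul (a b : k[X]) (ha : a ≠ 0) (hb : b ≠ 0) : ca (a * b) = ca a + ca b := by
  unfold ca
  rw [map_mul, cl_mul (RatFunc.algebraMap_ne_zero ha) (RatFunc.algebraMap_ne_zero hb)]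

theorem ca_pow (a : k[X]) (ha : a ≠ 0) (n : ℕ) : ca (a ^ n) = n • ca a := by
  unfold ca
  rw [map_pow, cl_pow (RatFunc.algebraMap_ne_zero ha)]

theorem ca_C (hk : ConstTors k) (c : k) (hc : c ≠ 0) : Tors (ca (C c)) := by
  unfold ca
  rw [RatFunc.algebraMap_C]
  exact tors_C hk c hc

theorem ca_sg (c : k) (P : k[X]) (hP : P ≠ 0) :
    ca P = clMap (sg c) (ca (reverse (taylor c P)) - P.natDegree • ca X) := by
  have hr : reverse (taylor c P) ≠ 0 := by
    rw [Ne, reverse_eq_zero, taylor_eq_zero]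
    exact hP
  have h1 : cl (xx c) = - cl (sg c (algebraMap k[X] (RatFunc k) X)) := by
    rw [sg_X, cl_inv (xx_ne_zero c), neg_neg]
  rw [map_sub, map_nsmul]
  unfold ca
  rw [clMap_cl, clMap_cl]
  conv_lhs => rw [← sg_rev c P]
  have h2 : sg c (algebraMap k[X] (RatFunc k) (reverse (taylor c P))) ≠ 0 := by
    rw [Ne, map_eq_zero]
    exact RatFunc.algebraMap_ne_zero hr
  rw [cl_mul h2 (pow_ne_zero _ (xx_ne_zero c)), cl_pow (xx_ne_zero c), h1, nsmul_neg_eq]
  exact (sub_eq_add_neg _ _).symm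
where
  nsmul_neg_eq {V : Type} [AddCommGroup V] {n : ℕ} {x : V} : n • (-x) = -(n • x) := smul_neg n x

/-- `s` is the class of a quotient of two monic polynomials of the same degree `≤ D` -/
def DZ (D : ℕ) (s : UV (RatFunc k)) : Prop :=
  ∃ a b : k[X], a.Monic ∧ b.Monic ∧ a.natDegree = b.natDegree ∧ a.natDegree ≤ D ∧
    Tors (s - (ca a - ca b))

theorem DZ.mono {D D' : ℕ} (h : D ≤ D') {s : UV (RatFunc k)} (hs : DZ D s) : DZ D' s := by
  obtain ⟨a, b, h1, h2, h3, h4, h5⟩ := hs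
  exact ⟨a, b, h1, h2, h3, h4.trans h, h5⟩

theorem ab_four {V : Type} [AddCommGroup V] (n n' : ℕ) (ra rb ra' rb' x : V)
    (h1 : Tors (ra' - ra)) (h2 : Tors (rb' - rb)) :
    Tors ((ra' - n • x) - (rb' - n' • x) - ((ra + n' • x) - (rb + n • x))) := by
  have := h1.sub h2
  convert this using 1
  abel

/-- monic normalisation of the reversed polynomial -/
noncomputable def rv (c : k) (P : k[X]) : k[X] :=
  reverse (taylor c P) * C (reverse (taylor c P)).leadingCoeff⁻¹

theorem rv_monic (c : k) (P : k[X]) (hP : P ≠ 0) : (rv c P).Monic := by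
  apply monic_mul_leadingCoeff_inv
  rw [Ne, reverse_eq_zero, taylor_eq_zero]
  exact hP

theorem rv_natDegree (c : k) (P : k[X]) (hP : P ≠ 0) (hc : P.eval c ≠ 0) :
    (rv c P).natDegree = P.natDegree := by
  have hr : reverse (taylor c P) ≠ 0 := by
    rw [Ne, reverse_eq_zero, taylor_eq_zero]
    exact hP
  unfold rv
  rw [natDegree_mul_leadingCoeff_inv _ hr, reverse_natDegree, natDegree_taylor]
  have : (taylor c P).natTrailingDegree = 0 := by
    rw [natTrailingDegree_eq_zero, taylor_coeff_zero]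
    exact Or.inr hc
  omega

theorem rv_tors (hk : ConstTors k) (c : k) (P : k[X]) (hP : P ≠ 0) :
    Tors (ca (reverse (taylor c P)) - ca (rv c P)) := by
  have hr : reverse (taylor c P) ≠ 0 := by
    rw [Ne, reverse_eq_zero, taylor_eq_zero]
    exact hP
  have h1 : (reverse (taylor c P)).leadingCoeff⁻¹ ≠ 0 := inv_ne_zero (leadingCoeff_ne_zero.2 hr)
  unfold rv
  rw [ca_mul _ _ hr (C_ne_zero.2 h1)]
  have h2 := (ca_C hk _ h1).neg
  convert h2 using 1
  abel

theorem transfer' (hk : ConstTors k) (c : k) (a b : k[X]) (ha : a ≠ 0) (hb : b ≠ 0)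
    (hac : a.eval c ≠ 0) (hbc : b.eval c ≠ 0) :
    ∃ s : UV (RatFunc k), DZ (a.natDegree + b.natDegree) s ∧
      ca a - ca b = clMap (sg c) s := by
  have hX : (X : k[X]) ≠ 0 := X_ne_zero
  have hra := rv_monic c a ha
  have hrb := rv_monic c b hb
  have hda := rv_natDegree c a ha hac
  have hdb := rv_natDegree c b hb hbc
  refine ⟨(ca (reverse (taylor c a)) - a.natDegree • ca X) -
    (ca (reverse (taylor c b)) - b.natDegree • ca X),
    ⟨rv c a * X ^ b.natDegree, rv c b * X ^ a.natDegree, hra.mul (monic_X_pow _),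
      hrb.mul (monic_X_pow _), ?_, ?_, ?_⟩, ?_⟩
  · rw [hra.natDegree_mul (monic_X_pow _), hrb.natDegree_mul (monic_X_pow _), natDegree_X_pow,
      natDegree_X_pow, hda, hdb]
    ring
  · rw [hra.natDegree_mul (monic_X_pow _), natDegree_X_pow, hda]
  · rw [ca_mul _ _ hra.ne_zero (pow_ne_zero _ hX), ca_mul _ _ hrb.ne_zero (pow_ne_zero _ hX),
      ca_pow _ hX, ca_pow _ hX]
    exact ab_four _ _ _ _ _ _ _ (rv_tors hk c a ha) (rv_tors hk c b hb)
  · rw [map_sub (clMap (sg c)), ← ca_sg c a ha, ← ca_sg c b hb]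

theorem ca_rep {K : Type} [Field K] [Fintype K] (ι : K →+* k) (D : ℕ) (a : k[X]) (ha : a.Monic)
    (hD : a.natDegree ≤ D) (hc : (a.coeffs : Set k) ⊆ Set.range ι) :
    Rep ι D (ca a) a.natDegree := by
  have h1 : a ∈ lifts ι := (lifts_iff_coeffs_subset_range a).2 hc
  obtain ⟨q, hq, hqd, hqm⟩ := lifts_and_natDegree_eq_and_monic h1 ha
  have h2 := rep_monic ι D a.natDegree q hqm hqd hD
  have h3 : cp ι q = ca a := by
    unfold cp ca
    rw [hq]
  rw [h3] at h2
  exact h2

theorem DZ.rep {K : Type} [Field K] [Fintype K] (ι : K →+* k) (D : ℕ) (s : UV (RatFunc k))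
    (a b : k[X]) (ha : a.Monic) (hb : b.Monic) (hab : a.natDegree = b.natDegree)
    (hD : a.natDegree ≤ D) (hs : Tors (s - (ca a - ca b)))
    (hca : (a.coeffs : Set k) ⊆ Set.range ι) (hcb : (b.coeffs : Set k) ⊆ Set.range ι) :
    Rep ι D s 0 := by
  have h1 := (ca_rep ι D a ha hD hca).sub (ca_rep ι D b hb (hab ▸ hD) hcb)
  rw [hab, sub_self] at h1
  exact h1.tors hs

theorem core_zero {m : ℕ} (hk : ConstTors k)
    (hfin : ∀ (S : Finset k) (q : ℕ), ∃ (K : Type) (_ : Field K) (_ : Fintype K) (ι : K →+* k),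
      (∀ a ∈ S, ∃ b, ι b = a) ∧ q ≤ Fintype.card K)
    (Q : MultilinearMap ℤ (fun _ : Fin (m + 1) => UV (RatFunc k)) (UV (RatFunc k) →ₗ[ℤ] ℚ))
    (hQ : ∀ f : RatFunc k, f ≠ 0 → f ≠ 1 → Q (fun _ => cl f) (cl (1 - f)) = 0)
    (D : ℕ) (s v : UV (RatFunc k)) (hs : DZ D s) (hv : DZ D v) : Q (fun _ => s) v = 0 := by
  classical
  obtain ⟨q0, hq0⟩ := ftgen m (D + 1) (by omega)
  obtain ⟨a, b, ha, hb, hab, haD, hst⟩ := hs
  obtain ⟨a', b', ha', hb', hab', haD', hvt⟩ := hv
  obtain ⟨K, _, _, ι, hι, hcard⟩ := hfin (a.coeffs ∪ b.coeffs ∪ (a'.coeffs ∪ b'.coeffs)) q0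
  have hsub : ∀ P : k[X], P.coeffs ⊆ a.coeffs ∪ b.coeffs ∪ (a'.coeffs ∪ b'.coeffs) →
      (P.coeffs : Set k) ⊆ Set.range ι := by
    intro P hP x hx
    exact hι x (hP hx)
  refine deg_zero_gen ι (D + 1) Q ?_ s v
    (DZ.rep ι (D + 1) s a b ha hb hab (by omega) hst (hsub a ?_) (hsub b ?_))
    (DZ.rep ι (D + 1) v a' b' ha' hb' hab' (by omega) hvt (hsub a' ?_) (hsub b' ?_))
  · intro t ht
    exact hq0 K hcard (UV (RatFunc k)) (PS Q) (ug ι) (fun σ w hσ => PS_symm Q w σ hσ)
      (fun a b ha hb => ug_mul ι a b ha hb) (ug_bal ι)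
      (fun A hA hdeg l hl => ug_rel hk ι Q hQ A hA hdeg l hl) t ht
  · exact fun x hx => Finset.mem_union_left _ (Finset.mem_union_left _ hx)
  · exact fun x hx => Finset.mem_union_left _ (Finset.mem_union_right _ hx)
  · exact fun x hx => Finset.mem_union_right _ (Finset.mem_union_left _ hx)
  · exact fun x hx => Finset.mem_union_right _ (Finset.mem_union_right _ hx)

/-- the duality statement for `k(x)`, `k` an infinite algebraic extension of `F_p` -/
theorem spanDual_inf (k : Type) [Field k] [Infinite k] (p : ℕ) [Fact p.Prime]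
    [Algebra (ZMod p) k] [Algebra.IsAlgebraic (ZMod p) k] (m : ℕ) :
    SpanDual (RatFunc k) m := by
  classical
  have hfin : ∀ S : Finset k, ∃ (K : Type) (_ : Field K) (_ : Fintype K) (ι : K →+* k),
      (∀ a ∈ S, ∃ b, ι b = a) ∧ S.card ≤ Fintype.card K := by
    intro S
    have hfd : FiniteDimensional (ZMod p) (IntermediateField.adjoin (ZMod p) (S : Set k)) :=
      IntermediateField.finiteDimensional_adjoin
        (fun x _ => (Algebra.IsAlgebraic.isAlgebraic x).isIntegral)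
    have hF : Finite (IntermediateField.adjoin (ZMod p) (S : Set k)) :=
      Module.finite_of_finite (ZMod p)
    let _ : Fintype (IntermediateField.adjoin (ZMod p) (S : Set k)) := Fintype.ofFinite _
    refine ⟨IntermediateField.adjoin (ZMod p) (S : Set k), inferInstance, inferInstance,
      algebraMap _ k, ?_, ?_⟩
    · intro a ha
      exact ⟨⟨a, IntermediateField.subset_adjoin _ _ ha⟩, rfl⟩
    · rw [← Fintype.card_coe S]
      exact Fintype.card_le_of_injective
        (fun a : S => (⟨a.1, IntermediateField.subset_adjoin _ _ a.2⟩ :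
          IntermediateField.adjoin (ZMod p) (S : Set k)))
        (by
          intro a b hab
          apply Subtype.ext
          exact congrArg (fun x : IntermediateField.adjoin (ZMod p) (S : Set k) => (x : k)) hab)
  have hfin' : ∀ (S : Finset k) (q : ℕ), ∃ (K : Type) (_ : Field K) (_ : Fintype K)
      (ι : K →+* k), (∀ a ∈ S, ∃ b, ι b = a) ∧ q ≤ Fintype.card K := by
    intro S q
    obtain ⟨S', hS', hScard⟩ := Infinite.exists_superset_card_eq S (max S.card q) (le_max_left _ _)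
    obtain ⟨K, i1, i2, ι, hι, hcard⟩ := hfin S'
    exact ⟨K, i1, i2, ι, fun a ha => hι a (hS' ha),
      le_trans (by rw [hScard]; exact le_max_right _ _) hcard⟩
  have hk : ConstTors k := by
    intro c hc
    obtain ⟨K, _, _, ι, hι, -⟩ := hfin {c}
    obtain ⟨b, hb⟩ := hι c (by simp)
    have hb0 : b ≠ 0 := by
      rintro rfl
      exact hc (by rw [← hb, map_zero])
    have h1 : 0 < Fintype.card K - 1 := by
      have := Fintype.one_lt_card (α := K)
      omega
    exact ⟨Fintype.card K - 1, h1, by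
      rw [← hb, ← map_pow, FiniteField.pow_card_sub_one_eq_one b hb0, map_one]⟩
  intro Q hQ s v
  obtain ⟨f, hf, rfl⟩ := exists_cl s
  obtain ⟨g, hg, rfl⟩ := exists_cl v
  have hcl : ∀ f : RatFunc k, f ≠ 0 → cl f = ca f.num - ca f.denom := by
    intro f hf
    unfold ca
    rw [← cl_div (RatFunc.algebraMap_ne_zero (RatFunc.num_ne_zero hf))
      (RatFunc.algebraMap_ne_zero (RatFunc.denom_ne_zero f)), RatFunc.num_div_denom]
  set P : k[X] := f.num * f.denom * (g.num * g.denom) with hP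
  have hP0 : P ≠ 0 := mul_ne_zero (mul_ne_zero (RatFunc.num_ne_zero hf) (RatFunc.denom_ne_zero f))
    (mul_ne_zero (RatFunc.num_ne_zero hg) (RatFunc.denom_ne_zero g))
  obtain ⟨c, hc⟩ := Infinite.exists_notMem_finset P.roots.toFinset
  rw [Multiset.mem_toFinset, mem_roots hP0, IsRoot, hP, eval_mul, eval_mul, eval_mul] at hc
  have hc1 : f.num.eval c ≠ 0 ∧ f.denom.eval c ≠ 0 ∧ g.num.eval c ≠ 0 ∧ g.denom.eval c ≠ 0 := by
    refine ⟨?_, ?_, ?_, ?_⟩ <;> intro h <;> apply hc <;> rw [h] <;> ring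
  obtain ⟨s', hs', hss'⟩ := transfer' hk c f.num f.denom (RatFunc.num_ne_zero hf)
    (RatFunc.denom_ne_zero f) hc1.1 hc1.2.1
  obtain ⟨v', hv', hvv'⟩ := transfer' hk c g.num g.denom (RatFunc.num_ne_zero hg)
    (RatFunc.denom_ne_zero g) hc1.2.2.1 hc1.2.2.2
  set Q' : MultilinearMap ℤ (fun _ : Fin (m + 1) => UV (RatFunc k)) (UV (RatFunc k) →ₗ[ℤ] ℚ) :=
    (LinearMap.lcomp ℤ ℚ (clMap (sg c))).compMultilinearMap
      (Q.compLinearMap (fun _ => clMap (sg c))) with hQ'
  have hQ'a : ∀ s v, Q' (fun _ => s) v = Q (fun _ => clMap (sg c) s) (clMap (sg c) v) :=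
    fun s v => rfl
  have h1 := core_zero hk hfin' Q' (by
    intro f hf0 hf1
    rw [hQ'a, clMap_cl, clMap_cl, map_sub, map_one]
    apply hQ
    · rw [Ne, map_eq_zero]; exact hf0
    · intro h
      exact hf1 ((sg c).injective (by rw [h, map_one])))
    (f.num.natDegree + f.denom.natDegree + (g.num.natDegree + g.denom.natDegree)) s' v'
    (hs'.mono (by omega)) (hv'.mono (by omega))
  rw [hQ'a, ← hss', ← hvv', ← hcl f hf, ← hcl g hg] at h1
  exact h1

end Pool.Agent.K9h91.PC
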