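import Pool.Agent.K9h91.PC.Err
import Pool.Agent.H39R2.Gon.A2

/-!
# The weights are uniformly distributed on few slots
-/

set_option autoImplicit false

namespace Pool.Agent.K9h91.PC

open Polynomial Finset H39Gon H39Gon.A2

section gen

variable {I K : Type} [Fintype I] [DecidableEq I] [Fintype K] [DecidableEq K]

theorem sum_A [Nonempty K] (T : Finset I) (f : (I → K) → ℝ) : ∑ z, A T f z = ∑ z, f z := by
  have := sum_mul_A T (fun _ => 1) f (fun _ _ => rfl)
  simpa using this

open Classical in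
/-- total variation -/
theorem tvg [Nonempty K] (W : (I → K) → ℝ) (hW : ∀ z, 0 ≤ W z) (w ε β : ℝ) (hw : 0 ≤ w)
    (T : Finset I) (Gd : (I → K) → Prop)
    (h0 : |(∑ z, W z) / NQ I K - w| ≤ ε * w) (hT : ∀ z, Gd z → |A T W z - w| ≤ ε * w)
    (hβ : ∑ z : I → K, (if Gd z then (0 : ℝ) else 1) ≤ β * NQ I K) :
    ∑ z, |A T W z - w| ≤ (3 * ε + 2 * β) * w * NQ I K := by
  have hQ : (0 : ℝ) < NQ I K := NQ_pos
  have hεw : 0 ≤ ε * w := le_trans (abs_nonneg _) h0
  have h1 : ∀ z, |A T W z - w| ≤ A T W z + ((-w + 2 * (ε * w)) +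
      2 * w * (if Gd z then (0 : ℝ) else 1)) := by
    intro z
    split_ifs with hz
    · have := hT z hz
      have h3 := abs_le.1 this
      rw [abs_le]
      constructor <;> nlinarith
    · have h4 : 0 ≤ A T W z := A_nonneg T hW z
      rw [abs_le]
      constructor <;> nlinarith
  have h2 := Finset.sum_le_sum (s := univ) (fun z _ => h1 z)
  rw [sum_add_distrib, sum_A, sum_add_distrib, ← mul_sum, sum_const, card_univ, nsmul_eq_mul,
    card_fun] at h2
  have h5 := (abs_le.1 h0).2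
  have h6 : (∑ z, W z) ≤ (w + ε * w) * NQ I K := by
    rw [← div_le_iff₀ hQ]
    linarith
  have h7 : 2 * w * ∑ z : I → K, (if Gd z then (0 : ℝ) else 1) ≤ 2 * w * (β * NQ I K) :=
    mul_le_mul_of_nonneg_left hβ (by linarith)
  nlinarith

theorem phi_bound [Nonempty K] (W : (I → K) → ℝ) (w C M : ℝ) (T : Finset I)
    (h : ∑ z, |A T W z - w| ≤ C) (φ : (I → K) → ℝ)
    (hφ : ∀ z z', (∀ a ∈ T, z a = z' a) → φ z = φ z') (hM : ∀ z, |φ z| ≤ M) :
    |∑ z, (W z - w) * φ z| ≤ M * C := by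
  have hg : ∀ z z', φ (T.piecewise z z') = φ z := by
    intro z z'
    apply hφ
    intro a ha
    simp [ha]
  have h1 := sum_mul_A T φ W hg
  have h2 : ∑ z, (W z - w) * φ z = ∑ z, φ z * (A T W z - w) := by
    simp only [mul_sub, sub_mul, sum_sub_distrib]
    rw [h1]
    congr 1
    · exact sum_congr rfl fun z _ => mul_comm _ _
    · exact sum_congr rfl fun z _ => mul_comm _ _
  rw [h2]
  obtain ⟨z0⟩ : Nonempty (I → K) := inferInstance
  have hM0 : 0 ≤ M := (abs_nonneg _).trans (hM z0)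
  calc |∑ z, φ z * (A T W z - w)| ≤ ∑ z, |φ z * (A T W z - w)| := abs_sum_le_sum_abs _ _
    _ ≤ ∑ z, M * |A T W z - w| := by
        refine sum_le_sum fun z _ => ?_
        rw [abs_mul]
        exact mul_le_mul_of_nonneg_right (hM z) (abs_nonneg _)
    _ ≤ M * C := by
        rw [← mul_sum]
        exact mul_le_mul_of_nonneg_left h hM0

end gen

variable {K : Type} [Field K] {d : ℕ}

/-- the prescribed factors and the linear factors for the slots in `T` -/
noncomputable def gT (g : Fin 3 → K[X]) (T : Finset (Fin 3 × Fin d)) (z : Fin 3 × Fin d → K)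
    (Y : Fin 3) : K[X] :=
  g Y * ∏ i ∈ univ.filter (fun i : Fin d => (Y, i) ∈ T), (X - C (z (Y, i)))

/-- the slots not in `T` -/
def ST (S : Fin 3 → Finset (Fin d)) (T : Finset (Fin 3 × Fin d)) (Y : Fin 3) : Finset (Fin d) :=
  (S Y).filter (fun i => (Y, i) ∉ T)

theorem gT_monic (g : Fin 3 → K[X]) (hg : ∀ Y, (g Y).Monic) (T : Finset (Fin 3 × Fin d))
    (z : Fin 3 × Fin d → K) (Y : Fin 3) : (gT g T z Y).Monic :=
  (hg Y).mul (monic_prod_of_monic _ _ (fun _ _ => monic_X_sub_C _))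

theorem gT_natDegree (g : Fin 3 → K[X]) (hg : ∀ Y, (g Y).Monic) (T : Finset (Fin 3 × Fin d))
    (z : Fin 3 × Fin d → K) (Y : Fin 3) : (gT g T z Y).natDegree =
      (g Y).natDegree + (univ.filter (fun i : Fin d => (Y, i) ∈ T)).card := by
  unfold gT
  rw [(hg Y).natDegree_mul (monic_prod_of_monic _ _ (fun _ _ => monic_X_sub_C _)),
    natDegree_prod_of_monic _ _ (fun i _ => monic_X_sub_C _)]
  simp only [natDegree_X_sub_C, sum_const, smul_eq_mul, mul_one]

theorem card_T (T : Finset (Fin 3 × Fin d)) :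
    (univ.filter (fun i : Fin d => ((0 : Fin 3), i) ∈ T)).card +
    (univ.filter (fun i : Fin d => ((1 : Fin 3), i) ∈ T)).card +
    (univ.filter (fun i : Fin d => ((2 : Fin 3), i) ∈ T)).card = T.card := by
  classical
  have h1 : T.card = ∑ Y : Fin 3, (T.filter (fun a => a.1 = Y)).card := by
    rw [← Finset.card_eq_sum_card_fiberwise (fun a _ => mem_univ a.1)]
  have h2 : ∀ Y : Fin 3, (T.filter (fun a => a.1 = Y)).card =
      (univ.filter (fun i : Fin d => (Y, i) ∈ T)).card := by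
    intro Y
    symm
    apply Finset.card_bij (fun i _ => (Y, i))
    · intro i hi
      simp only [mem_filter, mem_univ, true_and] at hi ⊢
      exact ⟨hi, trivial⟩
    · intro i _ j _ h
      simpa using h
    · intro b hb
      simp only [mem_filter] at hb
      refine ⟨b.2, ?_, ?_⟩
      · simp only [mem_filter, mem_univ, true_and]
        rw [← hb.2]; exact hb.1
      · rw [← hb.2]
  rw [h1, Fin.sum_univ_three, h2, h2, h2]

theorem degOK_T (g : Fin 3 → K[X]) (hg : ∀ Y, (g Y).Monic) (S : Fin 3 → Finset (Fin d))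
    (h : DegOK g S) (T : Finset (Fin 3 × Fin d)) (hT : ∀ a ∈ T, a.2 ∈ S a.1)
    (z : Fin 3 × Fin d → K) : DegOK (gT g T z) (ST S T) := by
  intro Y
  rw [gT_natDegree g hg]
  have h1 := h Y
  have h2 : (univ.filter (fun i : Fin d => (Y, i) ∈ T)) = (S Y).filter (fun i => (Y, i) ∈ T) := by
    ext i
    simp only [mem_filter, mem_univ, true_and]
    exact ⟨fun hi => ⟨hT _ hi, hi⟩, fun hi => hi.2⟩
  have h3 := Finset.card_filter_add_card_filter_not (s := S Y) (fun i : Fin d => (Y, i) ∈ T)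
  unfold ST
  rw [h2]
  omega

theorem Wg_piecewise (g : Fin 3 → K[X]) (S : Fin 3 → Finset (Fin d))
    (T : Finset (Fin 3 × Fin d)) (hT : ∀ a ∈ T, a.2 ∈ S a.1) (z z' : Fin 3 × Fin d → K) :
    Wg g S (T.piecewise z z') = Wg (gT g T z) (ST S T) z' := by
  classical
  unfold Wg
  have e : ∀ Y : Fin 3, g Y * ∏ i ∈ S Y, (X - C (T.piecewise z z' (Y, i))) =
      gT g T z Y * ∏ i ∈ ST S T Y, (X - C (z' (Y, i))) := by
    intro Y
    unfold gT ST
    rw [mul_assoc]
    congr 1
    rw [← Finset.prod_filter_mul_prod_filter_not (S Y) (fun i : Fin d => (Y, i) ∈ T)]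
    congr 1
    · have h2 : (univ.filter (fun i : Fin d => (Y, i) ∈ T)) =
          (S Y).filter (fun i => (Y, i) ∈ T) := by
        ext i
        simp only [mem_filter, mem_univ, true_and]
        exact ⟨fun hi => ⟨hT _ hi, hi⟩, fun hi => hi.2⟩
      rw [h2]
      apply Finset.prod_congr rfl
      intro i hi
      rw [mem_filter] at hi
      rw [Finset.piecewise_eq_of_mem _ _ _ hi.2]
    · apply Finset.prod_congr rfl
      intro i hi
      rw [mem_filter] at hi
      rw [Finset.piecewise_eq_of_notMem _ _ _ hi.2]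
  simp_rw [e]

/-- good values on `T` -/
def Gd (g : Fin 3 → K[X]) (T : Finset (Fin 3 × Fin d)) (z : Fin 3 × Fin d → K) : Prop :=
  (∀ a ∈ T, ∀ b ∈ T, a.1 ≠ b.1 → z a ≠ z b) ∧ ∀ a ∈ T, ∀ Y, Y ≠ a.1 → (g Y).eval (z a) ≠ 0

theorem coprime_T (g : Fin 3 → K[X]) (hcop : ∀ X Y : Fin 3, X ≠ Y → IsCoprime (g X) (g Y))
    (T : Finset (Fin 3 × Fin d)) (z : Fin 3 × Fin d → K) (hz : Gd g T z) (X Y : Fin 3)
    (hXY : X ≠ Y) : IsCoprime (gT g T z X) (gT g T z Y) := by
  have key : ∀ (P : K[X]) (a : K), P.eval a ≠ 0 → IsCoprime P (Polynomial.X - C a) := by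
    intro P a h
    rw [isCoprime_comm, (Polynomial.irreducible_X_sub_C a).coprime_iff_not_dvd, dvd_iff_isRoot]
    exact h
  unfold gT
  apply IsCoprime.mul_left
  · apply IsCoprime.mul_right (hcop X Y hXY)
    apply IsCoprime.prod_right
    intro i hi
    simp only [mem_filter, mem_univ, true_and] at hi
    exact key _ _ (hz.2 _ hi X hXY)
  · apply IsCoprime.mul_right
    · apply IsCoprime.prod_left
      intro i hi
      simp only [mem_filter, mem_univ, true_and] at hi
      exact (key _ _ (hz.2 _ hi Y hXY.symm)).symm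
    · apply IsCoprime.prod_left
      intro i hi
      apply IsCoprime.prod_right
      intro j hj
      simp only [mem_filter, mem_univ, true_and] at hi hj
      apply isCoprime_X_sub_C_of_isUnit_sub
      rw [isUnit_iff_ne_zero]
      exact sub_ne_zero.2 (hz.1 _ hi _ hj hXY)

open Classical in
theorem prob_bad [Fintype K] [DecidableEq K] (g : Fin 3 → K[X]) (hg : ∀ Y, (g Y).Monic)
    (T : Finset (Fin 3 × Fin d)) (N : ℕ)
    (hN : (g 0).natDegree + (g 1).natDegree + (g 2).natDegree + T.card ≤ N) :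
    ∑ z : Fin 3 × Fin d → K, (if Gd g T z then (0 : ℝ) else 1) ≤
      ((N : ℝ) ^ 2 / Fintype.card K) * NQ (Fin 3 × Fin d) K := by
  have hQ : (0 : ℝ) < NQ (Fin 3 × Fin d) K := NQ_pos
  have hq : (0 : ℝ) < Fintype.card K := by exact_mod_cast (Fintype.card_pos : 0 < Fintype.card K)
  have h1 : ∀ z : Fin 3 × Fin d → K, (if Gd g T z then (0 : ℝ) else 1)
      ≤ ∑ a ∈ T, (∑ b ∈ T, (if a.1 ≠ b.1 ∧ z a = z b then (1 : ℝ) else 0) +
        ∑ Y : Fin 3, ∑ r ∈ (g Y).roots.toFinset, (if z a = r then (1 : ℝ) else 0)) := by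
    intro z
    have hn1 : ∀ a, 0 ≤ ∑ b ∈ T, (if a.1 ≠ b.1 ∧ z a = z b then (1 : ℝ) else 0) := fun a =>
      sum_nonneg fun b _ => by split_ifs <;> norm_num
    have hn2 : ∀ a, 0 ≤ ∑ Y : Fin 3, ∑ r ∈ (g Y).roots.toFinset,
        (if z a = r then (1 : ℝ) else 0) := fun a =>
      sum_nonneg fun Y _ => sum_nonneg fun r _ => by split_ifs <;> norm_num
    split_ifs with hz
    · exact sum_nonneg fun a _ => add_nonneg (hn1 a) (hn2 a)
    · unfold Gd at hz
      rw [not_and_or] at hz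
      rcases hz with hz | hz
      · push Not at hz
        obtain ⟨a, ha, b, hb, hab, hz⟩ := hz
        calc (1 : ℝ) = (if a.1 ≠ b.1 ∧ z a = z b then (1 : ℝ) else 0) := by simp [hab, hz]
          _ ≤ ∑ b ∈ T, (if a.1 ≠ b.1 ∧ z a = z b then (1 : ℝ) else 0) :=
              single_le_sum (f := fun b => (if a.1 ≠ b.1 ∧ z a = z b then (1 : ℝ) else 0))
                (fun b _ => by split_ifs <;> norm_num) hb
          _ ≤ _ := le_add_of_nonneg_right (hn2 a)
          _ ≤ _ := single_le_sum (f := fun a => ∑ b ∈ T,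
                (if a.1 ≠ b.1 ∧ z a = z b then (1 : ℝ) else 0) +
                ∑ Y : Fin 3, ∑ r ∈ (g Y).roots.toFinset, (if z a = r then (1 : ℝ) else 0))
                (fun a _ => add_nonneg (hn1 a) (hn2 a)) ha
      · push Not at hz
        obtain ⟨a, ha, Y, hY, hz⟩ := hz
        have hr : z a ∈ (g Y).roots.toFinset := by
          rw [Multiset.mem_toFinset, mem_roots (hg Y).ne_zero]
          exact hz
        calc (1 : ℝ) = (if z a = z a then (1 : ℝ) else 0) := by simp
          _ ≤ ∑ r ∈ (g Y).roots.toFinset, (if z a = r then (1 : ℝ) else 0) :=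
              single_le_sum (f := fun r => (if z a = r then (1 : ℝ) else 0))
                (fun b _ => by split_ifs <;> norm_num) hr
          _ ≤ ∑ Y : Fin 3, ∑ r ∈ (g Y).roots.toFinset, (if z a = r then (1 : ℝ) else 0) :=
              single_le_sum (f := fun Y => ∑ r ∈ (g Y).roots.toFinset,
                (if z a = r then (1 : ℝ) else 0))
                (fun Y _ => sum_nonneg fun r _ => by split_ifs <;> norm_num) (mem_univ Y)
          _ ≤ _ := le_add_of_nonneg_left (hn1 a)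
          _ ≤ _ := single_le_sum (f := fun a => ∑ b ∈ T,
                (if a.1 ≠ b.1 ∧ z a = z b then (1 : ℝ) else 0) +
                ∑ Y : Fin 3, ∑ r ∈ (g Y).roots.toFinset, (if z a = r then (1 : ℝ) else 0))
                (fun a _ => add_nonneg (hn1 a) (hn2 a)) ha
  have h2 : ∀ a b : Fin 3 × Fin d, (Fintype.card K : ℝ) * ∑ z : Fin 3 × Fin d → K,
      (if a.1 ≠ b.1 ∧ z a = z b then (1 : ℝ) else 0) ≤ NQ (Fin 3 × Fin d) K := by
    intro a b
    by_cases hab : a.1 = b.1
    · simp [hab, hQ.le]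
    · have hne : b ≠ a := fun h => hab (by rw [h])
      have := card_coinc a (fun z : Fin 3 × Fin d → K => z b) (by
        intro z x
        rw [Function.update_of_ne hne])
      rw [← this]
      simp [hab]
  have h3 : ∀ (a : Fin 3 × Fin d) (Y : Fin 3), (Fintype.card K : ℝ) *
      ∑ z : Fin 3 × Fin d → K, ∑ r ∈ (g Y).roots.toFinset, (if z a = r then (1 : ℝ) else 0)
      ≤ (g Y).natDegree * NQ (Fin 3 × Fin d) K := by
    intro a Y
    rw [sum_comm, mul_sum]
    have : ∀ r ∈ (g Y).roots.toFinset, (Fintype.card K : ℝ) * ∑ z : Fin 3 × Fin d → K,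
        (if z a = r then (1 : ℝ) else 0) = NQ (Fin 3 × Fin d) K := fun r _ =>
      card_coinc a (fun _ => r) (fun _ _ => rfl)
    rw [sum_congr rfl this, sum_const, nsmul_eq_mul]
    refine mul_le_mul_of_nonneg_right ?_ hQ.le
    have : (g Y).roots.toFinset.card ≤ (g Y).natDegree :=
      (Multiset.toFinset_card_le _).trans (card_roots' _)
    exact_mod_cast this
  rw [div_mul_eq_mul_div, le_div_iff₀ hq]
  calc (∑ z : Fin 3 × Fin d → K, (if Gd g T z then (0 : ℝ) else 1)) * Fintype.card K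
      ≤ (∑ z : Fin 3 × Fin d → K, ∑ a ∈ T, (∑ b ∈ T,
        (if a.1 ≠ b.1 ∧ z a = z b then (1 : ℝ) else 0) +
        ∑ Y : Fin 3, ∑ r ∈ (g Y).roots.toFinset, (if z a = r then (1 : ℝ) else 0))) *
          Fintype.card K := by
        gcongr with z _
        exact h1 z
    _ = ∑ a ∈ T, (∑ b ∈ T, (Fintype.card K : ℝ) * ∑ z : Fin 3 × Fin d → K,
        (if a.1 ≠ b.1 ∧ z a = z b then (1 : ℝ) else 0) +
        ∑ Y : Fin 3, (Fintype.card K : ℝ) * ∑ z : Fin 3 × Fin d → K,
          ∑ r ∈ (g Y).roots.toFinset, (if z a = r then (1 : ℝ) else 0)) := by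
        rw [mul_comm, sum_comm, mul_sum]
        refine sum_congr rfl fun a _ => ?_
        rw [sum_add_distrib, mul_add]
        congr 1
        · rw [sum_comm, mul_sum]
        · rw [sum_comm, mul_sum]
    _ ≤ ∑ a ∈ T, (∑ b ∈ T, NQ (Fin 3 × Fin d) K +
        ∑ Y : Fin 3, (g Y).natDegree * NQ (Fin 3 × Fin d) K) := by
        refine sum_le_sum fun a _ => add_le_add (sum_le_sum fun b _ => h2 a b)
          (sum_le_sum fun Y _ => h3 a Y)
    _ = (T.card : ℝ) * (T.card + ((g 0).natDegree + (g 1).natDegree + (g 2).natDegree)) *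
          NQ (Fin 3 × Fin d) K := by
        rw [sum_const, sum_const, Fin.sum_univ_three]
        simp only [nsmul_eq_mul]
        ring
    _ ≤ (N : ℝ) ^ 2 * NQ (Fin 3 × Fin d) K := by
        refine mul_le_mul_of_nonneg_right ?_ hQ.le
        have e1 : (T.card : ℝ) ≤ N := by exact_mod_cast (by omega : T.card ≤ N)
        have e2 : ((T.card : ℝ) + ((g 0).natDegree + (g 1).natDegree + (g 2).natDegree)) ≤ N := by
          exact_mod_cast (by omega : T.card + ((g 0).natDegree + (g 1).natDegree +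
            (g 2).natDegree) ≤ N)
        rw [sq]
        exact mul_le_mul e1 e2 (by positivity) (by positivity)

/-- averages with the weights and without the weights are close -/
theorem err_phi (N d : ℕ) (hNd : 3 * N ≤ d) (η : ℝ) (hη : 0 < η) :
    ∃ q0 : ℕ, ∀ (K : Type) [Field K] [Fintype K] [DecidableEq K], q0 ≤ Fintype.card K →
    ∀ (g : Fin 3 → K[X]) (S : Fin 3 → Finset (Fin d)), DegOK g S → (∀ Y, (g Y).Monic) →
    (∀ X Y : Fin 3, X ≠ Y → IsCoprime (g X) (g Y)) → ∀ T : Finset (Fin 3 × Fin d),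
    (∀ a ∈ T, a.2 ∈ S a.1) →
    (g 0).natDegree + (g 1).natDegree + (g 2).natDegree + T.card ≤ N →
    ∀ (φ : (Fin 3 × Fin d → K) → ℝ) (M : ℝ),
    (∀ z z', (∀ a ∈ T, z a = z' a) → φ z = φ z') → (∀ z, |φ z| ≤ M) →
    |∑ z, (Wg g S z - wbar (Fintype.card K) d) * φ z| ≤
      M * (η * wbar (Fintype.card K) d * NQ (Fin 3 × Fin d) K) := by
  obtain ⟨q1, hq1⟩ := countG N d hNd (η / 6) (by positivity)
  obtain ⟨q2, hq2⟩ := exists_nat_gt (4 * (N : ℝ) ^ 2 / η)
  refine ⟨max q1 q2, ?_⟩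
  intro K _ _ _ hK g S hdeg hmon hcop T hT hN φ M hφ hM
  have hq : (1 : ℝ) < Fintype.card K := by exact_mod_cast Fintype.one_lt_card
  have hw : 0 ≤ wbar (Fintype.card K) d := by
    unfold wbar
    have : (0 : ℝ) ≤ (Fintype.card K : ℝ) - 1 := by linarith
    positivity
  have hNQ : NQ (Fin 3 × Fin d) K = (Fintype.card K : ℝ) ^ (3 * d) := by
    unfold NQ
    simp
  have hNQpos : 0 < NQ (Fin 3 × Fin d) K := NQ_pos
  have hWn : ∀ z : Fin 3 × Fin d → K, 0 ≤ Wg g S z := fun z => Nat.cast_nonneg _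
  refine phi_bound (Wg g S) _ _ M T ?_ φ hφ hM
  refine (tvg (Wg g S) hWn (wbar (Fintype.card K) d) (η / 6) ((N : ℝ) ^ 2 / Fintype.card K) hw T
    (Gd g T) ?_ ?_ (prob_bad g hmon T N hN)).trans ?_
  · rw [hNQ]
    exact hq1 K (le_trans (le_max_left _ _) hK) g S hdeg hmon hcop (by omega)
  · intro z hz
    have h1 := hq1 K (le_trans (le_max_left _ _) hK) (gT g T z) (ST S T)
      (degOK_T g hmon S hdeg T hT z) (gT_monic g hmon T z) (coprime_T g hcop T z hz) (by
        rw [gT_natDegree g hmon, gT_natDegree g hmon, gT_natDegree g hmon]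
        have := card_T T
        omega)
    unfold A
    rw [hNQ]
    simp_rw [Wg_piecewise g S T hT]
    exact h1
  · have h2 : 2 * ((N : ℝ) ^ 2 / Fintype.card K) ≤ η / 2 := by
      have h7 : (q2 : ℝ) ≤ Fintype.card K := by exact_mod_cast (le_trans (le_max_right _ _) hK)
      rw [← mul_div_assoc, div_le_iff₀ (by linarith)]
      rw [div_lt_iff₀ hη] at hq2
      nlinarith
    have h3 : 3 * (η / 6) + 2 * ((N : ℝ) ^ 2 / Fintype.card K) ≤ η := by linarith
    gcongr

end Pool.Agent.K9h91.PC
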