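import Pool.Agent.H39R2.Gon.Inv

/-!
# Translation bound for arbitrary monic polynomials
-/

set_option autoImplicit false

namespace Pool.Agent.K9h91.PC

open Polynomial Finset H39Gon

variable {K : Type} [Field K]

open Classical in
theorem card_not_coprime [Fintype K] (G : K[X]) (hG : G.Monic) (t0 : K) :
    (univ.filter (fun t : K => ¬ IsCoprime (taylor t G) (taylor t0 G))).card ≤
      G.natDegree ^ 2 := by
  set L := AlgebraicClosure K
  set R : Finset L := (G.aroots L).toFinset with hR
  have hRc : R.card ≤ G.natDegree := by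
    refine (Multiset.toFinset_card_le _).trans ?_
    rw [aroots_def]
    refine (card_roots' _).trans ?_
    rw [natDegree_map]
  have hsub : (univ.filter (fun t : K => ¬ IsCoprime (taylor t G) (taylor t0 G))).image
      (algebraMap K L) ⊆ (R ×ˢ R).image (fun p => p.1 - p.2 + algebraMap K L t0) := by
    intro x hx
    rw [mem_image] at hx
    obtain ⟨t, ht, rfl⟩ := hx
    simp only [mem_filter, mem_univ, true_and] at ht
    rw [Polynomial.isCoprime_iff_aeval_ne_zero_of_isAlgClosed K L] at ht
    push Not at ht
    obtain ⟨α, h1, h2⟩ := ht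
    have key : ∀ s : K, aeval α (taylor s G) = aeval (α + algebraMap K L s) G := by
      intro s
      rw [taylor_apply, aeval_comp]
      simp
    rw [key] at h1 h2
    rw [mem_image]
    refine ⟨(α + algebraMap K L t, α + algebraMap K L t0), ?_, ?_⟩
    · rw [mem_product]
      constructor <;>
      · rw [hR, Multiset.mem_toFinset, mem_aroots]
        exact ⟨hG.ne_zero, by assumption⟩
    · simp
  have h3 := card_le_card hsub
  rw [card_image_of_injective _ (algebraMap K L).injective] at h3
  refine h3.trans (card_image_le.trans ?_)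
  rw [card_product, sq]
  exact Nat.mul_le_mul hRc hRc

/-- Translation bound. -/
theorem translation_bound [Fintype K] [DecidableEq K] {d : ℕ} (S : Finset (Fin d)) (G0 : K[X])
    (hG0m : G0.Monic) {a : ℕ} (h : G0.natDegree + a = S.card + 1)
    (hN : 2 * G0.natDegree ≤ S.card + 1)
    [DecidableEq (AddChar (degreeLT K a) ℂ)] :
    ∑ χ ∈ univ.filter (fun χ : AddChar (degreeLT K (S.card + 1)) ℂ => resC G0 h.le χ = 1),
      nrm (gf (K := K) S (S.card + 1) (Nat.lt_succ_self _)) χ ^ 2 ≤
      1 + (G0.natDegree : ℝ) ^ 2 * (2 * d.factorial) / (Fintype.card K : ℝ) := by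
  classical
  set al : AddChar (degreeLT K (S.card + 1)) ℂ → ℝ :=
    fun χ => nrm (gf (K := K) S (S.card + 1) (Nat.lt_succ_self _)) χ ^ 2 with hal
  have hq : (0 : ℝ) < Fintype.card K := by exact_mod_cast Fintype.card_pos
  -- the translated polynomials
  set G : K → K[X] := fun t => taylor t G0 with hG
  have hGm : ∀ t, (G t).Monic := fun t => by
    rw [hG]
    unfold Monic
    rw [leadingCoeff_taylor]
    exact hG0m
  have hGd : ∀ t, (G t).natDegree = G0.natDegree := by
    intro t; rw [hG]; simp only; rw [natDegree_taylor]
  have hG0 : G0 = G 0 := by rw [hG]; simp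
  have hGt : ∀ t, taylor t (G 0) = G t := by
    intro t
    rw [← hG0]
  have ha : ∀ t, (G t).natDegree + a = S.card + 1 := by intro t; rw [hGd]; exact h
  -- D t
  set D : K → ℝ := fun t => ∑ χ ∈ (univ.filter (fun χ : AddChar (degreeLT K (S.card + 1)) ℂ =>
        resC (G t) (ha t).le χ = 1)).erase 1, al χ with hD
  have hDt : ∀ t, D t = D 0 := by
    intro t
    rw [hD]
    simp only
    apply Finset.sum_bij' (fun χ _ => trc t χ) (fun χ _ => trc (-t) χ)
    · intro χ hχ
      simp only [mem_filter, mem_univ, true_and, mem_erase] at hχ ⊢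
      refine ⟨?_, ?_⟩
      · intro h1
        apply hχ.1
        rw [← trc_neg t χ, h1]
        ext P; simp
      · ext P
        rw [resC_apply, trc_apply]
        have h2 := DFunLike.congr_fun hχ.2 (tay t _ P)
        rw [resC_apply] at h2
        rw [AddChar.one_apply] at h2 ⊢
        rw [← h2]
        congr 1
        ext1
        rw [tay_coe, mulMap_coe, mulMap_coe, taylor_mul, hGt, tay_coe]
    · intro χ hχ
      simp only [mem_filter, mem_univ, true_and, mem_erase] at hχ ⊢
      refine ⟨?_, ?_⟩
      · intro h1
        apply hχ.1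
        rw [← trc_neg' t χ, h1]
        ext P; simp
      · ext P
        rw [resC_apply, trc_apply]
        have h2 := DFunLike.congr_fun hχ.2 (tay (-t) _ P)
        rw [resC_apply] at h2
        rw [AddChar.one_apply] at h2 ⊢
        rw [← h2]
        congr 1
        ext1
        rw [tay_coe, mulMap_coe, mulMap_coe, taylor_mul, ← hGt t, taylor_taylor, neg_add_cancel,
          taylor_zero, tay_coe]
    · intro χ _
      exact trc_neg t χ
    · intro χ _
      exact trc_neg' t χ
    · intro χ _
      rw [hal]; simp only
      rw [nrm_trc]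
  have hcount : ∀ χ : AddChar (degreeLT K (S.card + 1)) ℂ, χ ≠ 1 →
      (univ.filter (fun t : K => resC (G t) (ha t).le χ = 1)).card ≤ G0.natDegree ^ 2 := by
    intro χ hχ
    by_cases hne : (univ.filter (fun t : K => resC (G t) (ha t).le χ = 1)).Nonempty
    · obtain ⟨t0, ht0⟩ := hne
      simp only [mem_filter, mem_univ, true_and] at ht0
      refine le_trans (card_le_card (t := univ.filter
        (fun t : K => ¬ IsCoprime (taylor t G0) (taylor t0 G0))) ?_)
        (card_not_coprime G0 hG0m t0)
      intro t ht
      simp only [mem_filter, mem_univ, true_and] at ht ⊢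
      intro hcop
      apply hχ
      apply resC_inj (hGm t) (hGm t0) hcop (ha t) (ha t0) (by rw [hGd, hGd]; omega) χ 1
      · rw [ht, resC_one]
      · rw [ht0, resC_one]
    · rw [Finset.not_nonempty_iff_eq_empty] at hne
      rw [hne]; simp
  have hsum : ∑ t : K, D t ≤ (G0.natDegree : ℝ) ^ 2 * (2 * d.factorial) := by
    calc ∑ t : K, D t = ∑ t : K, ∑ χ ∈ univ.erase (1 : AddChar (degreeLT K (S.card + 1)) ℂ),
          (if resC (G t) (ha t).le χ = 1 then al χ else 0) := by
          apply Finset.sum_congr rfl; intro t _
          rw [hD]; simp only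
          rw [← Finset.sum_filter]
          apply Finset.sum_congr _ (fun _ _ => rfl)
          ext χ; simp only [mem_erase, mem_filter, mem_univ, true_and]
          tauto
      _ = ∑ χ ∈ univ.erase (1 : AddChar (degreeLT K (S.card + 1)) ℂ),
          ((univ.filter (fun t : K => resC (G t) (ha t).le χ = 1)).card : ℝ) * al χ := by
          rw [Finset.sum_comm]
          apply Finset.sum_congr rfl; intro χ _
          rw [← Finset.sum_filter, Finset.sum_const, nsmul_eq_mul]
      _ ≤ ∑ χ ∈ univ.erase (1 : AddChar (degreeLT K (S.card + 1)) ℂ),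
          (G0.natDegree : ℝ) ^ 2 * al χ := by
          apply Finset.sum_le_sum
          intro χ hχ
          have := hcount χ (Finset.ne_of_mem_erase hχ)
          have h0 : 0 ≤ al χ := sq_nonneg _
          have h1 : ((univ.filter (fun t : K => resC (G t) (ha t).le χ = 1)).card : ℝ) ≤
              (G0.natDegree : ℝ) ^ 2 := by exact_mod_cast this
          exact mul_le_mul_of_nonneg_right h1 h0
      _ ≤ ∑ χ, (G0.natDegree : ℝ) ^ 2 * al χ := by
          apply Finset.sum_le_sum_of_subset_of_nonneg (Finset.erase_subset _ _)
          intro χ _ _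
          have h0 : 0 ≤ al χ := sq_nonneg _
          positivity
      _ ≤ _ := by
          rw [← Finset.mul_sum]
          have := parseval_gf (K := K) S
          apply mul_le_mul_of_nonneg_left this (by positivity)
  simp_rw [hDt] at hsum
  rw [Finset.sum_const, Finset.card_univ, nsmul_eq_mul] at hsum
  have hfin : ∑ χ ∈ univ.filter (fun χ : AddChar (degreeLT K (S.card + 1)) ℂ =>
        resC G0 h.le χ = 1), al χ = D 0 + al 1 := by
    have e : univ.filter (fun χ : AddChar (degreeLT K (S.card + 1)) ℂ =>
        resC G0 h.le χ = 1) =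
        univ.filter (fun χ : AddChar (degreeLT K (S.card + 1)) ℂ =>
        resC (G 0) (ha 0).le χ = 1) := by
      ext χ
      simp only [mem_filter, mem_univ, true_and]
      have : resC G0 h.le χ = resC (G 0) (ha 0).le χ := by
        ext P
        rw [resC_apply, resC_apply]
        congr 1
        ext1
        simp [hG]
      rw [this]
    rw [e, hD]
    simp only
    rw [Finset.sum_erase_add]
    simp only [mem_filter, mem_univ, true_and]
    exact resC_one _ _
  change ∑ χ ∈ univ.filter (fun χ : AddChar (degreeLT K (S.card + 1)) ℂ =>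
        resC G0 h.le χ = 1), al χ ≤ _
  rw [hfin]
  have hal1 : al 1 = 1 := by
    rw [hal]; simp only
    rw [nrm_one]; simp
  rw [hal1]
  have : D 0 ≤ (G0.natDegree : ℝ) ^ 2 * (2 * d.factorial) / (Fintype.card K : ℝ) := by
    rw [le_div_iff₀ hq]; linarith
  linarith

end Pool.Agent.K9h91.PC
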